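import Pool.Agent.Helper61.NLS.KFun

/-! The ratio `∫ ℓ K^{-1/2} / ∫ K^{-1/2}` near `a = 1`. -/

set_option autoImplicit false
open MeasureTheory Topology Filter Set

namespace Pool.Agent.Helper61.NLS

/-- `-log(1 - a sin²θ)` -/
noncomputable def ell (a θ : ℝ) : ℝ := -Real.log (1 - a * Real.sin θ ^ 2)

/-- `K^{-1/2}` -/
noncomputable def VV (a θ : ℝ) : ℝ := (√(K a (Real.sin θ ^ 2)))⁻¹

theorem sin_sq_mem' (θ : ℝ) : Real.sin θ ^ 2 ∈ Icc (0 : ℝ) 1 :=
  ⟨sq_nonneg _, Real.sin_sq_le_one θ⟩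

theorem ell_arg_ge {a : ℝ} (ha : 0 ≤ a) (θ : ℝ) : 1 - a ≤ 1 - a * Real.sin θ ^ 2 := by
  have := (sin_sq_mem' θ).2
  nlinarith

theorem ell_arg_le {a : ℝ} (ha : 0 ≤ a) (θ : ℝ) : 1 - a * Real.sin θ ^ 2 ≤ 1 := by
  have := (sin_sq_mem' θ).1
  nlinarith

theorem ell_nonneg {a : ℝ} (ha : 0 ≤ a) (ha1 : a < 1) (θ : ℝ) : 0 ≤ ell a θ := by
  unfold ell
  have := Real.log_nonpos (by linarith [ell_arg_ge ha θ]) (ell_arg_le ha θ)
  linarith

theorem ell_le {a : ℝ} (ha : 0 ≤ a) (ha1 : a < 1) (θ : ℝ) : ell a θ ≤ -Real.log (1 - a) := by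
  unfold ell
  have := Real.log_le_log (by linarith) (ell_arg_ge ha θ)
  linarith

theorem ell_cont {a : ℝ} (ha : 0 ≤ a) (ha1 : a < 1) : Continuous (ell a) := by
  unfold ell
  apply Continuous.neg
  apply Continuous.log (by fun_prop)
  intro θ
  have := ell_arg_ge ha θ
  linarith

theorem VV_pos {a : ℝ} (ha : 0 ≤ a) (ha1 : a < 1) (θ : ℝ) : 0 < VV a θ := by
  unfold VV
  apply inv_pos.2
  apply Real.sqrt_pos.2
  have := K_ge_one ha ha1 (sin_sq_mem' θ)
  linarith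

theorem VV_cont {a : ℝ} (ha : 0 ≤ a) (ha1 : a < 1) : Continuous (VV a) := by
  unfold VV
  apply Continuous.inv₀
  · apply Continuous.sqrt
    exact K_cont (α := fun _ : ℝ => a) (ζ := fun θ => Real.sin θ ^ 2) continuous_const
      (by fun_prop) (fun _ => ha) (fun _ => ha1) (fun θ => sin_sq_mem' θ)
  · intro θ
    have := K_ge_one ha ha1 (sin_sq_mem' θ)
    exact (Real.sqrt_pos.2 (by linarith)).ne'

/-- the fundamental identity -/
theorem VV_eq {a θ : ℝ} (ha : 0 < a) (ha1 : a < 1) (hθ : 0 < Real.cos θ) :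
    √(-Real.log (1 - a)) * VV a θ =
      √a * Real.cos θ * (√(1 - ell a θ / (-Real.log (1 - a))))⁻¹ := by
  have hz := sin_sq_mem' θ
  have hk : 0 < K a (Real.sin θ ^ 2) := by
    have := K_ge_one ha.le ha1 hz
    linarith
  have hN : 0 < -Real.log (1 - a) := by
    have := Real.log_neg (show 0 < 1 - a by linarith) (by linarith)
    linarith
  have h1 := K_log ha ha1 (z := Real.sin θ ^ 2) (lt_of_le_of_lt hz.2 ((one_lt_inv₀ ha).2 ha1))
  have hcos : 1 - Real.sin θ ^ 2 = Real.cos θ ^ 2 := by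
    have := Real.sin_sq_add_cos_sq θ; linarith
  rw [hcos] at h1
  have h2 : 1 - ell a θ / (-Real.log (1 - a)) =
      (√a * Real.cos θ) ^ 2 * K a (Real.sin θ ^ 2) / (-Real.log (1 - a)) := by
    unfold ell
    rw [mul_pow, Real.sq_sqrt ha.le, h1, eq_div_iff hN.ne', sub_mul, div_mul_cancel₀ _ hN.ne']
    ring
  rw [h2]
  have hc : 0 < √a * Real.cos θ := mul_pos (Real.sqrt_pos.2 ha) hθ
  unfold VV
  generalize √a * Real.cos θ = c at *
  generalize K a (Real.sin θ ^ 2) = k at *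
  generalize -Real.log (1 - a) = N at *
  rw [Real.sqrt_div (by positivity), Real.sqrt_mul (by positivity), Real.sqrt_sq hc.le]
  have hsk : 0 < √k := Real.sqrt_pos.2 hk
  have hsN : 0 < √N := Real.sqrt_pos.2 hN
  field_simp

theorem VV_le {a : ℝ} (ha : 0 < a) (ha1 : a < 1) (θ : ℝ) :
    √(-Real.log (1 - a)) * VV a θ ≤ 1 := by
  have hz := sin_sq_mem' θ
  have hk : 0 < K a (Real.sin θ ^ 2) := by
    have := K_ge_one ha.le ha1 hz
    linarith
  unfold VV
  rw [← div_eq_mul_inv, div_le_one (Real.sqrt_pos.2 hk)]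
  exact Real.sqrt_le_sqrt (K_ge_log ha ha1 hz)

/-- the primitive of `-log(1-t²)` -/
noncomputable def Phi (A : ℝ) : ℝ :=
  (1 - A) * Real.log (1 - A) - (1 + A) * Real.log (1 + A) + 2 * A

theorem Phi_deriv {t : ℝ} (h0 : -1 < t) (h1 : t < 1) :
    HasDerivAt Phi (-Real.log (1 - t ^ 2)) t := by
  have a1 : HasDerivAt (fun t : ℝ => 1 - t) (-1) t := by
    simpa using (hasDerivAt_id t).const_sub 1
  have a2 : HasDerivAt (fun t : ℝ => 1 + t) 1 t := by
    simpa using (hasDerivAt_id t).const_add 1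
  have h2 : (1 : ℝ) - t ≠ 0 := by linarith
  have h3 : (1 : ℝ) + t ≠ 0 := by linarith
  have b1 := a1.mul (a1.log h2)
  have b2 := a2.mul (a2.log h3)
  have b3 := (b1.sub b2).add ((hasDerivAt_id t).const_mul 2)
  unfold Phi
  refine b3.congr_deriv ?_
  have e : Real.log (1 - t ^ 2) = Real.log (1 - t) + Real.log (1 + t) := by
    rw [← Real.log_mul h2 h3]; congr 1; ring
  rw [e]
  field_simp
  ring

theorem int_cos_ell {a : ℝ} (ha : 0 < a) (ha1 : a < 1) :
    ∫ θ in (0 : ℝ)..(Real.pi / 2), √a * Real.cos θ * ell a θ = Phi (√a) := by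
  have hs : √a < 1 := by
    rw [Real.sqrt_lt' one_pos]; simpa using ha1
  have hs0 : 0 < √a := Real.sqrt_pos.2 ha
  have hd : ∀ θ ∈ uIcc (0 : ℝ) (Real.pi / 2), HasDerivAt (fun θ => Phi (√a * Real.sin θ))
      (√a * Real.cos θ * ell a θ) θ := by
    intro θ _
    have h1 : HasDerivAt (fun θ => √a * Real.sin θ) (√a * Real.cos θ) θ :=
      (Real.hasDerivAt_sin θ).const_mul _
    have h2 : |√a * Real.sin θ| < 1 := by
      rw [abs_mul, abs_of_pos hs0]
      have := Real.abs_sin_le_one θ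
      nlinarith [abs_nonneg (Real.sin θ)]
    obtain ⟨h3, h4⟩ := abs_lt.1 h2
    have h5 := HasDerivAt.comp (h₂ := Phi) (h := fun θ => √a * Real.sin θ) θ (Phi_deriv h3 h4) h1
    refine h5.congr_deriv ?_
    unfold ell
    rw [mul_pow, Real.sq_sqrt ha.le]
    ring
  rw [intervalIntegral.integral_eq_sub_of_hasDerivAt hd]
  · rw [Real.sin_pi_div_two, Real.sin_zero]
    have : Phi 0 = 0 := by simp [Phi]
    simp [this]
  · apply Continuous.intervalIntegrable
    have := ell_cont ha.le ha1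
    fun_prop

theorem int_cos {a : ℝ} :
    ∫ θ in (0 : ℝ)..(Real.pi / 2), √a * Real.cos θ = √a := by
  rw [intervalIntegral.integral_const_mul, integral_cos]
  simp

/-- lower bound for the expansion -/
theorem sqrt_ineq {x y : ℝ} (hx : 0 < x) (hx1 : x ≤ 1) (hy : 0 < y) (hy1 : y ≤ 1) :
    (y - x) * ((√x)⁻¹ - (√y)⁻¹) ≥ (y - x) ^ 2 / 2 := by
  have sx : 0 < √x := Real.sqrt_pos.2 hx
  have sy : 0 < √y := Real.sqrt_pos.2 hy
  have ex : √x ^ 2 = x := Real.sq_sqrt hx.le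
  have ey : √y ^ 2 = y := Real.sq_sqrt hy.le
  have lx : √x ≤ 1 := Real.sqrt_le_one.2 hx1
  have ly : √y ≤ 1 := Real.sqrt_le_one.2 hy1
  generalize √x = s at *
  generalize √y = t at *
  subst ex ey
  have e1 : (t ^ 2 - s ^ 2) * (s⁻¹ - t⁻¹) = (t - s) ^ 2 * ((t + s) / (s * t)) := by
    field_simp
    ring
  rw [e1]
  have h1 : (t + s) ^ 2 / 2 ≤ (t + s) / (s * t) := by
    rw [le_div_iff₀ (by positivity)]
    have h2 : (t + s) * (s * t) ≤ 2 := by
      have := mul_le_mul lx ly sy.le zero_le_one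
      nlinarith
    have h3 : 0 < t + s := by positivity
    nlinarith
  have h2 : (t ^ 2 - s ^ 2) ^ 2 / 2 = (t - s) ^ 2 * ((t + s) ^ 2 / 2) := by ring
  rw [h2]
  exact mul_le_mul_of_nonneg_left h1 (sq_nonneg _)

end Pool.Agent.Helper61.NLS
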