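import Pool.Agent.Helper61.NLS.Asym

/-! A parameter where the ratio exceeds its limit. -/

set_option autoImplicit false
open MeasureTheory Topology Filter Set

namespace Pool.Agent.Helper61.NLS

theorem exp_neg_ten_lt : Real.exp (-10) < 1 / 20000 := by
  have h1 : (2.7 : ℝ) < Real.exp 1 := lt_trans (by norm_num) Real.exp_one_gt_d9
  have h2 : Real.exp 10 = Real.exp 1 ^ 10 := by
    rw [← Real.exp_nat_mul]; norm_num
  have h3 : (2.7 : ℝ) ^ 10 < Real.exp 1 ^ 10 := pow_lt_pow_left₀ h1 (by norm_num) (by norm_num)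
  rw [Real.exp_neg, h2, one_div]
  apply inv_strictAnti₀ (by norm_num)
  refine lt_trans ?_ h3
  norm_num

theorem claimA : ∃ a : ℝ, 0 < a ∧ a < 1 ∧
    (2 - 2 * Real.log 2) * ∫ θ in (0 : ℝ)..(Real.pi / 2), VV a θ <
      ∫ θ in (0 : ℝ)..(Real.pi / 2), ell a θ * VV a θ := by
  obtain ⟨ε, hε⟩ : ∃ ε : ℝ, ε = Real.exp (-10) := ⟨_, rfl⟩
  have e0 : 0 < ε := by rw [hε]; exact Real.exp_pos _
  have e1 : ε < 1 / 20000 := by rw [hε]; exact exp_neg_ten_lt
  have elog : Real.log ε = -10 := by rw [hε, Real.log_exp]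
  obtain ⟨A, hA⟩ : ∃ A : ℝ, A = 1 - ε := ⟨_, rfl⟩
  obtain ⟨a, ha⟩ : ∃ a : ℝ, a = A ^ 2 := ⟨_, rfl⟩
  have A0 : 0.99 < A := by rw [hA]; linarith
  have A1 : A < 1 := by rw [hA]; linarith
  have a0 : 0 < a := by rw [ha]; positivity
  have a1 : a < 1 := by rw [ha]; nlinarith
  have sa : √a = A := by rw [ha]; exact Real.sqrt_sq (by linarith)
  have l2a := Real.log_two_gt_d9
  have l2b := Real.log_two_lt_d9
  obtain ⟨m, hm⟩ : ∃ m : ℝ, m = 2 - 2 * Real.log 2 := ⟨_, rfl⟩
  have m0 : 0.6137 < m := by rw [hm]; linarith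
  have m1 : m < 0.6138 := by rw [hm]; linarith
  obtain ⟨N, hN⟩ : ∃ N : ℝ, N = -Real.log (1 - a) := ⟨_, rfl⟩
  have hlog1 : 0 < Real.log (2 - ε) := Real.log_pos (by linarith)
  have hlog2 : Real.log (2 - ε) ≤ Real.log 2 := Real.log_le_log (by linarith) (by linarith)
  have N' : N = 10 - Real.log (2 - ε) := by
    have : 1 - a = ε * (2 - ε) := by rw [ha, hA]; ring
    rw [hN, this, Real.log_mul e0.ne' (by linarith), elog]
    ring
  have N0 : 9.3 < N := by linarith
  have N1 : N < 10 := by linarith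
  refine ⟨a, a0, a1, ?_⟩
  rw [← hm]
  have hec := ell_cont a0.le a1
  have hVc := VV_cont a0.le a1
  -- the reference factor
  obtain ⟨f, hf⟩ : ∃ f : ℝ, f = (√(1 - m / N))⁻¹ := ⟨_, rfl⟩
  have hmN : m / N ≤ 3 / 4 := by
    rw [div_le_iff₀ (by linarith)]; linarith
  have hmN0 : 0 < m / N := by positivity
  have f0 : 0 < f := by
    rw [hf]; apply inv_pos.2; apply Real.sqrt_pos.2; linarith
  have f2 : f ≤ 2 := by
    rw [hf]
    have h1 : (1 / 2 : ℝ) ≤ √(1 - m / N) := by
      apply Real.le_sqrt_of_sq_le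
      linarith
    have := inv_anti₀ (by norm_num) h1
    linarith
  -- pointwise bound
  have hpt : ∀ θ ∈ Ioo (0 : ℝ) (Real.pi / 2),
      A * Real.cos θ * ((ell a θ - m) * f + (ell a θ - m) ^ 2 / (2 * N)) ≤
        (ell a θ - m) * (√N * VV a θ) := by
    intro θ hθ
    have hc : 0 < Real.cos θ := Real.cos_pos_of_mem_Ioo ⟨by linarith [hθ.1, Real.pi_pos], hθ.2⟩
    have h1 := VV_eq a0 a1 hc
    rw [← hN, sa] at h1
    rw [h1]
    -- positivity of the argument
    have hx : 0 < 1 - ell a θ / N := by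
      have h2 := K_log a0 a1 (z := Real.sin θ ^ 2)
        (lt_of_le_of_lt (sin_sq_mem' θ).2 ((one_lt_inv₀ a0).2 a1))
      have hk : 0 < K a (Real.sin θ ^ 2) := by
        have := K_ge_one a0.le a1 (sin_sq_mem' θ)
        linarith
      have hcos : 1 - Real.sin θ ^ 2 = Real.cos θ ^ 2 := by
        have := Real.sin_sq_add_cos_sq θ; linarith
      rw [hcos] at h2
      have h3 : 0 < a * Real.cos θ ^ 2 * K a (Real.sin θ ^ 2) := by positivity
      have h4 : ell a θ < N := by
        unfold ell
        linarith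
      rw [sub_pos, div_lt_one (by linarith)]
      exact h4
    have hx1 : 1 - ell a θ / N ≤ 1 := by
      have := div_nonneg (ell_nonneg a0.le a1 θ) (show 0 ≤ N by linarith)
      linarith
    have h5 := sqrt_ineq hx hx1 (show 0 < 1 - m / N by linarith) (by linarith)
    rw [← hf] at h5
    have h6 : (1 - m / N) - (1 - ell a θ / N) = (ell a θ - m) / N := by
      field_simp; ring
    rw [h6] at h5
    have hNp : 0 < N := by linarith
    have h7 : (ell a θ - m) * ((√(1 - ell a θ / N))⁻¹ - f) ≥ (ell a θ - m) ^ 2 / (2 * N) := by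
      have h8 := mul_le_mul_of_nonneg_left h5 hNp.le
      have h9 : N * ((ell a θ - m) / N * ((√(1 - ell a θ / N))⁻¹ - f)) =
        (ell a θ - m) * ((√(1 - ell a θ / N))⁻¹ - f) := by field_simp
      have h10 : N * (((ell a θ - m) / N) ^ 2 / 2) = (ell a θ - m) ^ 2 / (2 * N) := by
        field_simp
      rw [h9, h10] at h8
      exact h8
    have hAc : 0 < A * Real.cos θ := by positivity
    have h11 := mul_le_mul_of_nonneg_left h7 hAc.le
    calc A * Real.cos θ * ((ell a θ - m) * f + (ell a θ - m) ^ 2 / (2 * N))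
        = A * Real.cos θ * ((ell a θ - m) * f) +
          A * Real.cos θ * ((ell a θ - m) ^ 2 / (2 * N)) := by ring
      _ ≤ A * Real.cos θ * ((ell a θ - m) * f) +
          A * Real.cos θ * ((ell a θ - m) * ((√(1 - ell a θ / N))⁻¹ - f)) := by linarith
      _ = (ell a θ - m) * (A * Real.cos θ * (√(1 - ell a θ / N))⁻¹) := by ring
  have hpi := Real.pi_pos
  -- integrate
  have hint : ∫ θ in (0 : ℝ)..(Real.pi / 2),
      A * Real.cos θ * ((ell a θ - m) * f + (ell a θ - m) ^ 2 / (2 * N)) ≤
      ∫ θ in (0 : ℝ)..(Real.pi / 2), (ell a θ - m) * (√N * VV a θ) := by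
    apply intervalIntegral.integral_mono_on_of_le_Ioo (by positivity)
    · apply Continuous.intervalIntegrable
      fun_prop
    · apply Continuous.intervalIntegrable
      fun_prop
    · exact hpt
  have hR : ∫ θ in (0 : ℝ)..(Real.pi / 2), (ell a θ - m) * (√N * VV a θ) =
      √N * ((∫ θ in (0 : ℝ)..(Real.pi / 2), ell a θ * VV a θ) -
        m * ∫ θ in (0 : ℝ)..(Real.pi / 2), VV a θ) := by
    rw [← intervalIntegral.integral_const_mul m, ← intervalIntegral.integral_sub,
      ← intervalIntegral.integral_const_mul]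
    · apply intervalIntegral.integral_congr
      intro θ _
      simp only
      ring
    · exact (hec.mul hVc).intervalIntegrable _ _
    · exact (continuous_const.mul hVc).intervalIntegrable _ _
  have hL : ∫ θ in (0 : ℝ)..(Real.pi / 2),
      A * Real.cos θ * ((ell a θ - m) * f + (ell a θ - m) ^ 2 / (2 * N)) =
      f * (Phi A - m * A) + (∫ θ in (0 : ℝ)..(Real.pi / 2),
        A * Real.cos θ * (ell a θ - m) ^ 2) / (2 * N) := by
    have h1 := int_cos_ell a0 a1
    have h2 := int_cos (a := a)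
    rw [sa] at h1 h2
    rw [← h1]
    have h3 : m * A = ∫ θ in (0 : ℝ)..(Real.pi / 2), m * (A * Real.cos θ) := by
      rw [intervalIntegral.integral_const_mul, h2]
    rw [h3, ← intervalIntegral.integral_sub, ← intervalIntegral.integral_const_mul,
      ← intervalIntegral.integral_div, ← intervalIntegral.integral_add]
    · apply intervalIntegral.integral_congr
      intro θ _
      simp only
      ring
    · apply Continuous.intervalIntegrable
      fun_prop
    · apply Continuous.intervalIntegrable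
      fun_prop
    · apply Continuous.intervalIntegrable
      fun_prop
    · apply Continuous.intervalIntegrable
      fun_prop
  -- the square term
  have hsq : 0.07 * (A / 2) ≤ ∫ θ in (0 : ℝ)..(Real.pi / 2),
        A * Real.cos θ * (ell a θ - m) ^ 2 := by
    have hc1 : Continuous (fun θ => A * Real.cos θ * (ell a θ - m) ^ 2) := by fun_prop
    have h1 : ∫ θ in (0 : ℝ)..(Real.pi / 2), A * Real.cos θ * (ell a θ - m) ^ 2 =
      (∫ θ in (0 : ℝ)..(Real.pi / 6), A * Real.cos θ * (ell a θ - m) ^ 2) +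
      ∫ θ in (Real.pi / 6)..(Real.pi / 2), A * Real.cos θ * (ell a θ - m) ^ 2 :=
      (intervalIntegral.integral_add_adjacent_intervals (hc1.intervalIntegrable _ _)
        (hc1.intervalIntegrable _ _)).symm
    have h2 : 0 ≤ ∫ θ in (Real.pi / 6)..(Real.pi / 2), A * Real.cos θ * (ell a θ - m) ^ 2 := by
      apply intervalIntegral.integral_nonneg (by linarith)
      intro θ hθ
      have : 0 ≤ Real.cos θ := Real.cos_nonneg_of_mem_Icc ⟨by linarith [hθ.1], hθ.2⟩
      positivity
    have h3 : ∫ θ in (0 : ℝ)..(Real.pi / 6), 0.07 * (A * Real.cos θ) ≤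
        ∫ θ in (0 : ℝ)..(Real.pi / 6), A * Real.cos θ * (ell a θ - m) ^ 2 := by
      apply intervalIntegral.integral_mono_on (by positivity)
      · apply Continuous.intervalIntegrable
        fun_prop
      · exact hc1.intervalIntegrable _ _
      · intro θ hθ
        have hcos : 0 ≤ Real.cos θ :=
          Real.cos_nonneg_of_mem_Icc ⟨by linarith [hθ.1], by linarith [hθ.2]⟩
        have hsin0 : 0 ≤ Real.sin θ := Real.sin_nonneg_of_nonneg_of_le_pi hθ.1 (by linarith [hθ.2])
        have hsin : Real.sin θ ≤ 1 / 2 := by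
          rw [← Real.sin_pi_div_six]
          exact Real.sin_le_sin_of_le_of_le_pi_div_two (by linarith [hθ.1]) (by linarith) hθ.2
        have hs2 : Real.sin θ ^ 2 ≤ 1 / 4 := by nlinarith
        have harg : 3 / 4 ≤ 1 - a * Real.sin θ ^ 2 := by nlinarith [sq_nonneg (Real.sin θ)]
        have hl1 : Real.log (3 / 4) ≤ Real.log (1 - a * Real.sin θ ^ 2) :=
          Real.log_le_log (by norm_num) harg
        have hl2 : 1 - (3 / 4 : ℝ)⁻¹ ≤ Real.log (3 / 4) :=
          Real.one_sub_inv_le_log_of_pos (by norm_num)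
        have hl3 : ell a θ ≤ 1 / 3 := by
          unfold ell
          norm_num at hl2
          linarith
        have h4 : 0.07 ≤ (ell a θ - m) ^ 2 := by nlinarith
        have h5 : 0 ≤ A * Real.cos θ := by positivity
        nlinarith
    have h4 : ∫ θ in (0 : ℝ)..(Real.pi / 6), 0.07 * (A * Real.cos θ) = 0.07 * (A / 2) := by
      rw [intervalIntegral.integral_const_mul, intervalIntegral.integral_const_mul, integral_cos,
        Real.sin_pi_div_six, Real.sin_zero]
      ring
    linarith
  -- the linear term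
  have hlin : -(10 * ε + ε * Real.log 2) ≤ Phi A - m * A := by
    unfold Phi
    have h1 : 1 - A = ε := by rw [hA]; ring
    have h2 : 1 + A = 2 - ε := by rw [hA]; ring
    rw [h1, h2, elog, hA, hm]
    have h3 : (2 - ε) * Real.log (2 - ε) ≤ (2 - ε) * Real.log 2 :=
      mul_le_mul_of_nonneg_left hlog2 (by linarith)
    nlinarith
  rw [hL, hR] at hint
  have hpos : 0 < f * (Phi A - m * A) + (∫ θ in (0 : ℝ)..(Real.pi / 2),
        A * Real.cos θ * (ell a θ - m) ^ 2) / (2 * N) := by
    have h1 : 0.07 * (A / 2) / 20 ≤ (∫ θ in (0 : ℝ)..(Real.pi / 2),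
        A * Real.cos θ * (ell a θ - m) ^ 2) / (2 * N) := by
      apply div_le_div₀ _ hsq (by positivity) (by linarith)
      exact le_trans (by positivity) hsq
    have h2 : 10 * ε + ε * Real.log 2 ≤ 0.00054 := by nlinarith
    have h3 : f * (Phi A - m * A) ≥ -0.00108 := by
      rcases le_or_gt 0 (Phi A - m * A) with h | h
      · have := mul_nonneg f0.le h
        linarith
      · nlinarith
    linarith
  have hNs : 0 < √N := Real.sqrt_pos.2 (by linarith)
  have hfin : 0 < √N * ((∫ θ in (0 : ℝ)..(Real.pi / 2), ell a θ * VV a θ) -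
        m * ∫ θ in (0 : ℝ)..(Real.pi / 2), VV a θ) := lt_of_lt_of_le hpos hint
  have := (mul_pos_iff_of_pos_left hNs).1 hfin
  linarith

end Pool.Agent.Helper61.NLS
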