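import Pool.Agent.Helper61.NLS.AsymA

/-! The limit of the ratio. -/

set_option autoImplicit false
open MeasureTheory Topology Filter Set

namespace Pool.Agent.Helper61.NLS

/-- the parameter -/
noncomputable def aa (t : ℝ) : ℝ := 1 - Real.exp (-t)

theorem aa_mem {t : ℝ} (ht : 0 < t) : 0 < aa t ∧ aa t < 1 := by
  unfold aa
  constructor
  · have h1 := Real.exp_lt_exp.2 (show -t < 0 by linarith)
    rw [Real.exp_zero] at h1
    linarith
  · have := Real.exp_pos (-t)
    linarith

theorem aa_log (t : ℝ) : -Real.log (1 - aa t) = t := by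
  unfold aa
  rw [sub_sub_cancel, Real.log_exp, neg_neg]

theorem aa_tendsto : Tendsto aa atTop (𝓝 1) := by
  have h := Real.tendsto_exp_neg_atTop_nhds_zero.const_sub 1
  rw [sub_zero] at h
  exact h

theorem Phi_cont : Continuous Phi := by
  have h1 : Continuous (fun A : ℝ => (1 - A) * Real.log (1 - A)) :=
    Real.continuous_mul_log.comp (by fun_prop)
  have h2 : Continuous (fun A : ℝ => (1 + A) * Real.log (1 + A)) :=
    Real.continuous_mul_log.comp (by fun_prop)
  unfold Phi
  exact (h1.sub h2).add (by fun_prop)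

theorem Phi_one : Phi 1 = 2 - 2 * Real.log 2 := by
  unfold Phi
  norm_num
  ring

theorem FF_tendsto : Tendsto (fun t : ℝ => ∫ θ in (0 : ℝ)..(Real.pi / 2),
    ell (aa t) θ * (√t * VV (aa t) θ - √(aa t) * Real.cos θ)) atTop (𝓝 0) := by
  have hpi := Real.pi_pos
  have key := intervalIntegral.tendsto_integral_filter_of_dominated_convergence
    (μ := volume) (a := (0 : ℝ)) (b := Real.pi / 2) (l := atTop)
    (F := fun (t : ℝ) θ => ell (aa t) θ * (√t * VV (aa t) θ - √(aa t) * Real.cos θ))
    (f := fun _ => (0 : ℝ)) (fun θ => -2 * Real.log (Real.cos θ)) ?_ ?_ ?_ ?_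
  · simpa using key
  · filter_upwards [eventually_gt_atTop (0 : ℝ)] with t ht
    obtain ⟨a0, a1⟩ := aa_mem ht
    have h1 := ell_cont a0.le a1
    have h2 := VV_cont a0.le a1
    exact (by fun_prop : Continuous fun θ =>
      ell (aa t) θ * (√t * VV (aa t) θ - √(aa t) * Real.cos θ)).aestronglyMeasurable
  · filter_upwards [eventually_gt_atTop (0 : ℝ)] with t ht
    obtain ⟨a0, a1⟩ := aa_mem ht
    have hne : ∀ᵐ θ : ℝ, θ ≠ Real.pi / 2 := by
      have : volume ({Real.pi / 2} : Set ℝ) = 0 := measure_singleton _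
      filter_upwards [compl_mem_ae_iff.2 this] with θ hθ
      simpa using hθ
    filter_upwards [hne] with θ hθ hm
    rw [uIoc_of_le (by positivity)] at hm
    have hlt : θ < Real.pi / 2 := lt_of_le_of_ne hm.2 hθ
    have hc : 0 < Real.cos θ := Real.cos_pos_of_mem_Ioo ⟨by linarith [hm.1], hlt⟩
    have h1 := VV_eq a0 a1 hc
    have h2 := VV_le a0 a1 θ
    rw [aa_log] at h1 h2
    have h3 := ell_nonneg a0.le a1 θ
    have h4 : √(aa t) * Real.cos θ ≤ √t * VV (aa t) θ := by
      rw [h1]
      have hx : 0 < √(1 - ell (aa t) θ / t) := by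
        by_contra hcon
        push Not at hcon
        have h5 : √(1 - ell (aa t) θ / t) = 0 := le_antisymm hcon (Real.sqrt_nonneg _)
        rw [h5, inv_zero, mul_zero] at h1
        have := mul_pos (Real.sqrt_pos.2 ht) (VV_pos a0.le a1 θ)
        linarith
      have hx1 : √(1 - ell (aa t) θ / t) ≤ 1 := by
        apply Real.sqrt_le_one.2
        have := div_nonneg h3 ht.le
        linarith
      have := (one_le_inv₀ hx).2 hx1
      have h6 : 0 ≤ √(aa t) * Real.cos θ := by positivity
      nlinarith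
    have h5 : 0 ≤ √(aa t) * Real.cos θ := by positivity
    have h6 : ell (aa t) θ ≤ -2 * Real.log (Real.cos θ) := by
      unfold ell
      have h7 : Real.cos θ ^ 2 ≤ 1 - aa t * Real.sin θ ^ 2 := by
        have := Real.sin_sq_add_cos_sq θ
        nlinarith [sq_nonneg (Real.sin θ)]
      have h8 := Real.log_le_log (by positivity) h7
      rw [Real.log_pow] at h8
      push_cast at h8
      linarith
    rw [Real.norm_of_nonneg (mul_nonneg h3 (by linarith))]
    calc ell (aa t) θ * (√t * VV (aa t) θ - √(aa t) * Real.cos θ) ≤ ell (aa t) θ * 1 :=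
          mul_le_mul_of_nonneg_left (by linarith) h3
      _ ≤ _ := by linarith
  · have : IntervalIntegrable (Real.log ∘ Real.cos) volume 0 (Real.pi / 2) :=
      intervalIntegrable_log_cos
    exact this.const_mul (-2)
  · have hne : ∀ᵐ θ : ℝ, θ ≠ Real.pi / 2 := by
      have : volume ({Real.pi / 2} : Set ℝ) = 0 := measure_singleton _
      filter_upwards [compl_mem_ae_iff.2 this] with θ hθ
      simpa using hθ
    filter_upwards [hne] with θ hθ hm
    rw [uIoc_of_le (by positivity)] at hm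
    have hlt : θ < Real.pi / 2 := lt_of_le_of_ne hm.2 hθ
    have hc : 0 < Real.cos θ := Real.cos_pos_of_mem_Ioo ⟨by linarith [hm.1], hlt⟩
    have hell : Tendsto (fun t => ell (aa t) θ) atTop
        (𝓝 (-Real.log (1 - 1 * Real.sin θ ^ 2))) := by
      unfold ell
      apply Tendsto.neg
      apply Tendsto.log
      · exact (aa_tendsto.mul_const _).const_sub 1
      · have := Real.sin_sq_add_cos_sq θ
        have : 0 < Real.cos θ ^ 2 := by positivity
        linarith
    have hdiv : Tendsto (fun t => ell (aa t) θ / t) atTop (𝓝 0) := by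
      have := hell.mul tendsto_inv_atTop_zero
      rw [mul_zero] at this
      exact this.congr fun t => (div_eq_mul_inv _ _).symm
    have hroot : Tendsto (fun t => (√(1 - ell (aa t) θ / t))⁻¹) atTop (𝓝 1) := by
      have h1 := (hdiv.const_sub 1).sqrt
      rw [sub_zero, Real.sqrt_one] at h1
      have h2 := h1.inv₀ one_ne_zero
      rwa [inv_one] at h2
    have hsa : Tendsto (fun t => √(aa t)) atTop (𝓝 1) := by
      have := aa_tendsto.sqrt
      rwa [Real.sqrt_one] at this
    have hall := hell.mul (((hsa.mul_const (Real.cos θ)).mul hroot).sub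
      (hsa.mul_const (Real.cos θ)))
    have e0 : -Real.log (1 - 1 * Real.sin θ ^ 2) *
      (1 * Real.cos θ * 1 - 1 * Real.cos θ) = 0 := by ring
    rw [e0] at hall
    refine hall.congr' ?_
    filter_upwards [eventually_gt_atTop (0 : ℝ)] with t ht
    obtain ⟨a0, a1⟩ := aa_mem ht
    have h1 := VV_eq a0 a1 hc
    rw [aa_log] at h1
    rw [h1]

theorem claimB {m' : ℝ} (hm' : 2 - 2 * Real.log 2 < m') : ∀ᶠ t : ℝ in atTop,
    ∫ θ in (0 : ℝ)..(Real.pi / 2), ell (aa t) θ * VV (aa t) θ ≤
      m' * ∫ θ in (0 : ℝ)..(Real.pi / 2), VV (aa t) θ := by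
  have hpi := Real.pi_pos
  have l2b := Real.log_two_lt_d9
  have hsa : Tendsto (fun t => √(aa t)) atTop (𝓝 1) := by
    have := aa_tendsto.sqrt
    rwa [Real.sqrt_one] at this
  have hPhi : Tendsto (fun t => Phi (√(aa t))) atTop (𝓝 (Phi 1)) :=
    (Phi_cont.tendsto 1).comp hsa
  have h1 := hPhi.add FF_tendsto
  rw [Phi_one, add_zero] at h1
  have h2 : Tendsto (fun t => m' * √(aa t)) atTop (𝓝 (m' * 1)) := hsa.const_mul m'
  rw [mul_one] at h2
  have h3 := h1.eventually_lt h2 hm'
  filter_upwards [h3, eventually_gt_atTop (0 : ℝ)] with t ht t0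
  obtain ⟨a0, a1⟩ := aa_mem t0
  have c1 := ell_cont a0.le a1
  have c2 := VV_cont a0.le a1
  have hst : 0 < √t := Real.sqrt_pos.2 t0
  have e1 : Phi (√(aa t)) + ∫ θ in (0 : ℝ)..(Real.pi / 2),
      ell (aa t) θ * (√t * VV (aa t) θ - √(aa t) * Real.cos θ) =
      √t * ∫ θ in (0 : ℝ)..(Real.pi / 2), ell (aa t) θ * VV (aa t) θ := by
    rw [← int_cos_ell a0 a1, ← intervalIntegral.integral_const_mul,
      ← intervalIntegral.integral_add]
    · apply intervalIntegral.integral_congr
      intro θ _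
      simp only
      ring
    · apply Continuous.intervalIntegrable
      fun_prop
    · apply Continuous.intervalIntegrable
      fun_prop
  have e2 : √(aa t) ≤ √t * ∫ θ in (0 : ℝ)..(Real.pi / 2), VV (aa t) θ := by
    rw [← int_cos (a := aa t), ← intervalIntegral.integral_const_mul √t]
    apply intervalIntegral.integral_mono_on_of_le_Ioo (by positivity)
    · apply Continuous.intervalIntegrable
      fun_prop
    · apply Continuous.intervalIntegrable
      fun_prop
    · intro θ hθ
      have hc : 0 < Real.cos θ := Real.cos_pos_of_mem_Ioo ⟨by linarith [hθ.1], hθ.2⟩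
      have h1 := VV_eq a0 a1 hc
      rw [aa_log] at h1
      rw [h1]
      have h3 := ell_nonneg a0.le a1 θ
      have hx : 0 < √(1 - ell (aa t) θ / t) := by
        by_contra hcon
        push Not at hcon
        have h5 : √(1 - ell (aa t) θ / t) = 0 := le_antisymm hcon (Real.sqrt_nonneg _)
        rw [h5, inv_zero, mul_zero] at h1
        have := mul_pos (Real.sqrt_pos.2 t0) (VV_pos a0.le a1 θ)
        linarith
      have hx1 : √(1 - ell (aa t) θ / t) ≤ 1 := by
        apply Real.sqrt_le_one.2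
        have := div_nonneg h3 t0.le
        linarith
      have := (one_le_inv₀ hx).2 hx1
      have h6 : 0 ≤ √(aa t) * Real.cos θ := by positivity
      nlinarith
  rw [e1] at ht
  have hm0 : 0 < m' := by linarith
  have h4 : √t * ∫ θ in (0 : ℝ)..(Real.pi / 2), ell (aa t) θ * VV (aa t) θ ≤
      √t * (m' * ∫ θ in (0 : ℝ)..(Real.pi / 2), VV (aa t) θ) := by
    have := mul_le_mul_of_nonneg_left e2 hm0.le
    calc _ ≤ m' * √(aa t) := ht.le
      _ ≤ m' * (√t * ∫ θ in (0 : ℝ)..(Real.pi / 2), VV (aa t) θ) := this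
      _ = _ := by ring
  exact le_of_mul_le_mul_left h4 hst

/-- two parameters at which the ratio decreases -/
theorem exists_two : ∃ a₁ a₂ m₁ m₂ : ℝ, 0 < a₁ ∧ a₁ < a₂ ∧ a₂ < 1 ∧ 0 < m₂ ∧ m₂ < m₁ ∧
    m₁ * (∫ θ in (0 : ℝ)..(Real.pi / 2), VV a₁ θ) ≤
      (∫ θ in (0 : ℝ)..(Real.pi / 2), ell a₁ θ * VV a₁ θ) ∧
    (∫ θ in (0 : ℝ)..(Real.pi / 2), ell a₂ θ * VV a₂ θ) ≤
      m₂ * (∫ θ in (0 : ℝ)..(Real.pi / 2), VV a₂ θ) := by
  obtain ⟨a, a0, a1, h⟩ := claimA
  have hpi := Real.pi_pos
  have l2b := Real.log_two_lt_d9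
  have hV : 0 < ∫ θ in (0 : ℝ)..(Real.pi / 2), VV a θ := by
    apply intervalIntegral.intervalIntegral_pos_of_pos_on
      ((VV_cont a0.le a1).intervalIntegrable _ _) _ (by positivity)
    intro θ _
    exact VV_pos a0.le a1 θ
  set D := ∫ θ in (0 : ℝ)..(Real.pi / 2), VV a θ with hD
  set E := ∫ θ in (0 : ℝ)..(Real.pi / 2), ell a θ * VV a θ with hE
  have h1 : 2 - 2 * Real.log 2 < E / D := by
    rw [lt_div_iff₀ hV]; exact h
  obtain ⟨m₂, h2, h3⟩ := exists_between h1
  have h4 := claimB h2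
  have h5 : ∀ᶠ t in atTop, a < aa t := aa_tendsto.eventually (Ioi_mem_nhds a1)
  obtain ⟨t, ht1, ht2, ht3⟩ := (h4.and (h5.and (eventually_gt_atTop (0 : ℝ)))).exists
  refine ⟨a, aa t, E / D, m₂, a0, ht2, (aa_mem ht3).2, by linarith, h3, ?_, ht1⟩
  rw [div_mul_cancel₀ _ hV.ne']

end Pool.Agent.Helper61.NLS
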