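import Pool.Agent.Helper61.NLS.Wave

/-! Waves of a fixed period. -/

set_option autoImplicit false
open MeasureTheory Topology Filter Set

namespace Pool.Agent.Helper61.NLS

theorem GG_lt {p q : PP} (h1 : p.1.1 ≤ q.1.1) (h2 : p.1.2 ≤ q.1.2)
    (h : p.1.1 < q.1.1 ∨ p.1.2 < q.1.2) (θ : ℝ) : GG p θ < GG q θ := by
  unfold GG
  have hp := GG_arg_pos p θ
  obtain ⟨a1, a2, a3⟩ := p.2
  obtain ⟨b1, b2, b3⟩ := q.2
  have hz := sin_sq_mem θ
  apply Real.sqrt_lt_sqrt (by linarith)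
  have k1 := K_ge_one a1.le a2 hz
  have k2 := K_ge_one b1.le b2 hz
  have k3 : K p.1.1 (Real.sin θ ^ 2) ≤ K q.1.1 (Real.sin θ ^ 2) := by
    rcases h1.eq_or_lt with h | h
    · rw [h]
    · exact (K_lt a1 h b2 hz).le
  have : p.1.2 * K p.1.1 (Real.sin θ ^ 2) < q.1.2 * K q.1.1 (Real.sin θ ^ 2) := by
    rcases h with h | h
    · have := K_lt a1 h b2 hz
      calc p.1.2 * K p.1.1 (Real.sin θ ^ 2) < p.1.2 * K q.1.1 (Real.sin θ ^ 2) :=
            mul_lt_mul_of_pos_left this (by linarith)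
        _ ≤ _ := mul_le_mul_of_nonneg_right h2 (by linarith)
    · calc p.1.2 * K p.1.1 (Real.sin θ ^ 2) ≤ p.1.2 * K q.1.1 (Real.sin θ ^ 2) :=
            mul_le_mul_of_nonneg_left k3 (by linarith)
        _ < _ := mul_lt_mul_of_pos_right h (by linarith)
  linarith

theorem Tp_lt {p q : PP} (h1 : p.1.1 ≤ q.1.1) (h2 : p.1.2 ≤ q.1.2)
    (h : p.1.1 < q.1.1 ∨ p.1.2 < q.1.2) : Tp q < Tp p := by
  unfold Tp XX
  have hlt : ∀ θ, WW q θ < WW p θ := by
    intro θ
    unfold WW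
    exact inv_strictAnti₀ (GG_pos p θ) (GG_lt h1 h2 h θ)
  apply intervalIntegral.integral_lt_integral_of_continuousOn_of_le_of_exists_lt
    (by positivity) (WW_good.cont1 q).continuousOn (WW_good.cont1 p).continuousOn
  · intro θ _
    exact (hlt θ).le
  · exact ⟨0, ⟨le_rfl, by positivity⟩, hlt 0⟩

theorem Tp_cont : Continuous Tp := by
  unfold Tp
  exact WW_good.XX_cont.comp (continuous_id.prodMk continuous_const)

theorem Tp_le (p : PP) : Tp p ≤ 2 * Real.pi * (√(p.1.2 - 1))⁻¹ := by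
  have h3 := p.2.2.2
  have h : ∀ θ, WW p θ ≤ (√(p.1.2 - 1))⁻¹ := by
    intro θ
    unfold WW
    apply inv_anti₀ (Real.sqrt_pos.2 (by linarith))
    unfold GG
    exact Real.sqrt_le_sqrt (GG_arg_pos p θ)
  unfold Tp XX
  have h1 : ∫ t in (0 : ℝ)..(2 * Real.pi), WW p t ≤ ∫ _ in (0 : ℝ)..(2 * Real.pi),
      (√(p.1.2 - 1))⁻¹ :=
    intervalIntegral.integral_mono_on (by positivity) ((WW_good.cont1 p).intervalIntegrable _ _)
      intervalIntegrable_const (fun t _ => h t)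
  simpa using h1

theorem exists_Om {a Ωs L : ℝ} (h0 : 0 < a) (h1 : a < 1) (hΩ : 1 < Ωs) (hL : 0 < L)
    (hT : L < Tp ⟨(a, Ωs), h0, h1, hΩ⟩) : ∃ p : PP, p.1.1 = a ∧ Ωs < p.1.2 ∧ Tp p = L := by
  -- a large parameter
  set Ω' : ℝ := max Ωs (1 + (2 * Real.pi / L) ^ 2 + 1) with hΩ'
  have hle : Ωs ≤ Ω' := le_max_left _ _
  have hle2 : 1 + (2 * Real.pi / L) ^ 2 + 1 ≤ Ω' := le_max_right _ _
  have hc : Continuous (fun y : Icc Ωs Ω' => Tp ⟨(a, y.1), h0, h1, hΩ.trans_le y.2.1⟩) := by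
    apply Tp_cont.comp
    exact Continuous.subtype_mk (by fun_prop) _
  have hsmall : Tp ⟨(a, Ω'), h0, h1, hΩ.trans_le hle⟩ ≤ L := by
    refine (Tp_le _).trans ?_
    simp only
    have h3 : 2 * Real.pi / L ≤ √(Ω' - 1) := by
      apply Real.le_sqrt_of_sq_le
      linarith
    have h4 : 0 < 2 * Real.pi / L := by positivity
    calc 2 * Real.pi * (√(Ω' - 1))⁻¹ ≤ 2 * Real.pi * (2 * Real.pi / L)⁻¹ :=
          mul_le_mul_of_nonneg_left (inv_anti₀ h4 h3) (by positivity)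
      _ = L := by field_simp
  haveI : PreconnectedSpace (Icc Ωs Ω') := Subtype.preconnectedSpace isPreconnected_Icc
  obtain ⟨y, hy⟩ := mem_range_of_exists_le_of_exists_ge hc
    ⟨⟨Ω', hle, le_rfl⟩, hsmall⟩ ⟨⟨Ωs, le_rfl, hle⟩, hT.le⟩
  refine ⟨_, rfl, ?_, hy⟩
  simp only
  rcases y.2.1.eq_or_lt with h | h
  · exfalso
    have e : (⟨(a, y.1), h0, h1, hΩ.trans_le y.2.1⟩ : PP) = ⟨(a, Ωs), h0, h1, hΩ⟩ := by
      apply Subtype.ext
      simp only [← h]
    simp only at hy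
    rw [e] at hy
    linarith
  · exact h

/-- the family with fixed period -/
theorem exists_family {a₁ a₂ Ωs L : ℝ} (h0 : 0 < a₁) (h12 : a₁ < a₂) (h1 : a₂ < 1) (hΩ : 1 < Ωs)
    (hL : 0 < L) (hT : L < Tp ⟨(a₂, Ωs), h0.trans h12, h1, hΩ⟩) :
    ∃ pf : Icc a₁ a₂ → PP, Continuous pf ∧
      (∀ a, (pf a).1.1 = a ∧ Ωs < (pf a).1.2 ∧ Tp (pf a) = L) ∧
      (∀ a b, a < b → (pf b).1.2 < (pf a).1.2) := by
  have hex : ∀ a : Icc a₁ a₂, ∃ p : PP, p.1.1 = a ∧ Ωs < p.1.2 ∧ Tp p = L := by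
    intro a
    have ha0 : 0 < a.1 := h0.trans_le a.2.1
    have ha1 : a.1 < 1 := a.2.2.trans_lt h1
    apply exists_Om ha0 ha1 hΩ hL
    rcases a.2.2.eq_or_lt with h | h
    · have e : (⟨(a.1, Ωs), ha0, ha1, hΩ⟩ : PP) = ⟨(a₂, Ωs), h0.trans h12, h1, hΩ⟩ := by
        apply Subtype.ext
        simp only [h]
      rw [e]
      exact hT
    · exact hT.trans (Tp_lt h.le le_rfl (Or.inl h))
  choose pf hpf using hex
  have hanti : ∀ a b, a < b → (pf b).1.2 < (pf a).1.2 := by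
    intro a b hab
    by_contra hcon
    push Not at hcon
    have h3 : (pf a).1.1 < (pf b).1.1 := by
      rw [(hpf a).1, (hpf b).1]; exact hab
    have := Tp_lt h3.le hcon (Or.inl h3)
    rw [(hpf a).2.2, (hpf b).2.2] at this
    exact lt_irrefl _ this
  refine ⟨pf, ?_, hpf, hanti⟩
  -- continuity
  have hOm : Continuous (fun a => (pf a).1.2) := by
    rw [continuous_iff_continuousAt]
    intro a
    unfold ContinuousAt
    rw [tendsto_order]
    have hmk : ∀ (y : ℝ) (hy : 1 < y), Continuous (fun b : Icc a₁ a₂ =>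
        Tp ⟨(b.1, y), h0.trans_le b.2.1, b.2.2.trans_lt h1, hy⟩) := by
      intro y hy
      apply Tp_cont.comp
      exact Continuous.subtype_mk (by fun_prop) _
    have hcmp : ∀ (b : Icc a₁ a₂) (y : ℝ) (hy : 1 < y),
        (L < Tp ⟨(b.1, y), h0.trans_le b.2.1, b.2.2.trans_lt h1, hy⟩ → y < (pf b).1.2) ∧
        (Tp ⟨(b.1, y), h0.trans_le b.2.1, b.2.2.trans_lt h1, hy⟩ < L → (pf b).1.2 < y) ∧
        (y < (pf b).1.2 → L < Tp ⟨(b.1, y), h0.trans_le b.2.1, b.2.2.trans_lt h1, hy⟩) ∧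
        ((pf b).1.2 < y → Tp ⟨(b.1, y), h0.trans_le b.2.1, b.2.2.trans_lt h1, hy⟩ < L) := by
      intro b y hy
      have e1 := (hpf b).1
      have e2 := (hpf b).2.2
      refine ⟨fun h => ?_, fun h => ?_, fun h => ?_, fun h => ?_⟩
      · by_contra hcon
        push Not at hcon
        rcases hcon.eq_or_lt with h' | h'
        · have e : (⟨(b.1, y), h0.trans_le b.2.1, b.2.2.trans_lt h1, hy⟩ : PP) = pf b := by
            apply Subtype.ext
            exact Prod.ext e1.symm h'.symm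
          rw [e, e2] at h
          exact lt_irrefl _ h
        · have := Tp_lt (p := pf b) (q := ⟨(b.1, y), h0.trans_le b.2.1, b.2.2.trans_lt h1, hy⟩)
            e1.le h'.le (Or.inr h')
          rw [e2] at this
          linarith
      · by_contra hcon
        push Not at hcon
        rcases hcon.eq_or_lt with h' | h'
        · have e : (⟨(b.1, y), h0.trans_le b.2.1, b.2.2.trans_lt h1, hy⟩ : PP) = pf b := by
            apply Subtype.ext
            exact Prod.ext e1.symm h'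
          rw [e, e2] at h
          exact lt_irrefl _ h
        · have := Tp_lt (q := pf b) (p := ⟨(b.1, y), h0.trans_le b.2.1, b.2.2.trans_lt h1, hy⟩)
            e1.ge h'.le (Or.inr h')
          rw [e2] at this
          linarith
      · have := Tp_lt (q := pf b) (p := ⟨(b.1, y), h0.trans_le b.2.1, b.2.2.trans_lt h1, hy⟩)
            e1.ge h.le (Or.inr h)
        rwa [e2] at this
      · have := Tp_lt (p := pf b) (q := ⟨(b.1, y), h0.trans_le b.2.1, b.2.2.trans_lt h1, hy⟩)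
            e1.le h.le (Or.inr h)
        rwa [e2] at this
    constructor
    · intro y hy
      obtain ⟨y', h1', h2'⟩ := exists_between (max_lt hy (hpf a).2.1)
      have hy1 : 1 < y' := hΩ.trans ((le_max_right _ _).trans_lt h1')
      have h3 := (hcmp a y' hy1).2.2.1 h2'
      have h4 := (hmk y' hy1).continuousAt.eventually (Ioi_mem_nhds h3)
      filter_upwards [h4] with b hb
      exact (((le_max_left _ _).trans_lt h1')).trans ((hcmp b y' hy1).1 hb)
    · intro y hy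
      have hy1 : 1 < y := hΩ.trans ((hpf a).2.1.trans hy)
      have h3 := (hcmp a y hy1).2.2.2 hy
      have h4 := (hmk y hy1).continuousAt.eventually (Iio_mem_nhds h3)
      filter_upwards [h4] with b hb
      exact (hcmp b y hy1).2.1 hb
  rw [continuous_induced_rng]
  have e : (Subtype.val ∘ pf) = fun a => ((a.1 : ℝ), (pf a).1.2) := by
    funext a
    exact Prod.ext (hpf a).1 rfl
  rw [e]
  fun_prop

end Pool.Agent.Helper61.NLS
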