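import Mathlib

/-! Families of increasing functions given by integrals and their inverses. -/

set_option autoImplicit false
open MeasureTheory Topology Filter Set

namespace Pool.Agent.Helper61.NLS

/-- primitive -/
noncomputable def XX {P : Type*} (W : P → ℝ → ℝ) (p : P) (θ : ℝ) : ℝ := ∫ t in (0 : ℝ)..θ, W p t

/-- a good family of weights -/
structure Good {P : Type*} [TopologicalSpace P] (W : P → ℝ → ℝ) : Prop where
  cont : Continuous (Function.uncurry W)
  low : ∀ p, ∃ c, 0 < c ∧ ∀ θ, c ≤ W p θ
  per : ∀ p θ, W p (θ + 2 * Real.pi) = W p θ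
  even : ∀ p θ, W p (-θ) = W p θ

variable {P : Type*} [TopologicalSpace P] {W : P → ℝ → ℝ}

theorem Good.pos (hW : Good W) (p : P) (θ : ℝ) : 0 < W p θ := by
  obtain ⟨c, hc, h⟩ := hW.low p
  exact hc.trans_le (h θ)

theorem Good.cont1 (hW : Good W) (p : P) : Continuous (W p) :=
  hW.cont.comp (Continuous.prodMk_right p)

theorem Good.XX_cont (hW : Good W) : Continuous fun q : P × ℝ => XX W q.1 q.2 :=
  intervalIntegral.continuous_parametric_primitive_of_continuous hW.cont

theorem Good.XX_deriv (hW : Good W) (p : P) (θ : ℝ) : HasDerivAt (XX W p) (W p θ) θ :=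
  intervalIntegral.integral_hasDerivAt_right ((hW.cont1 p).intervalIntegrable _ _)
    ((hW.cont1 p).stronglyMeasurableAtFilter _ _) (hW.cont1 p).continuousAt

theorem XX_zero (p : P) : XX W p 0 = 0 := by simp [XX]

theorem Good.XX_strictMono (hW : Good W) (p : P) : StrictMono (XX W p) := by
  apply strictMono_of_deriv_pos
  intro θ
  rw [(hW.XX_deriv p θ).deriv]
  exact hW.pos p θ

theorem Good.XX_add (hW : Good W) (p : P) (θ : ℝ) :
    XX W p (θ + 2 * Real.pi) = XX W p θ + XX W p (2 * Real.pi) := by
  unfold XX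
  have h1 := Function.Periodic.intervalIntegral_add_eq (f := W p) (T := 2 * Real.pi)
    (fun x => hW.per p x) θ 0
  rw [zero_add] at h1
  rw [← h1, intervalIntegral.integral_add_adjacent_intervals
    ((hW.cont1 p).intervalIntegrable _ _) ((hW.cont1 p).intervalIntegrable _ _)]

theorem Good.XX_neg (hW : Good W) (p : P) (θ : ℝ) : XX W p (-θ) = -XX W p θ := by
  unfold XX
  have h1 : ∫ t in (0 : ℝ)..(-θ), W p t = ∫ t in (0 : ℝ)..(-θ), W p (-t) := by
    apply intervalIntegral.integral_congr
    intro t _
    exact (hW.even p t).symm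
  rw [h1, intervalIntegral.integral_comp_neg, neg_neg, neg_zero, intervalIntegral.integral_symm]

theorem Good.XX_surj (hW : Good W) (p : P) : Function.Surjective (XX W p) := by
  obtain ⟨c, hc, h⟩ := hW.low p
  have hge : ∀ θ : ℝ, 0 ≤ θ → c * θ ≤ XX W p θ := by
    intro θ hθ
    have h1 : ∫ _ in (0 : ℝ)..θ, c ≤ ∫ t in (0 : ℝ)..θ, W p t :=
      intervalIntegral.integral_mono_on hθ intervalIntegrable_const
        ((hW.cont1 p).intervalIntegrable _ _) (fun t _ => h t)
    simp only [intervalIntegral.integral_const, smul_eq_mul, sub_zero] at h1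
    unfold XX
    linarith
  have hcont : Continuous (XX W p) := continuous_iff_continuousAt.2
    fun θ => (hW.XX_deriv p θ).continuousAt
  intro x
  have hb : 0 ≤ |x| / c := by positivity
  have h1 := hge _ hb
  have h2 : c * (|x| / c) = |x| := by field_simp
  rw [h2] at h1
  have h3 := hW.XX_neg p (|x| / c)
  have hx : x ∈ Icc (XX W p (-(|x| / c))) (XX W p (|x| / c)) := by
    rw [h3]
    constructor
    · linarith [neg_abs_le x]
    · linarith [le_abs_self x]
  obtain ⟨θ, -, h4⟩ := intermediate_value_Icc (by linarith) hcont.continuousOn hx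
  exact ⟨θ, h4⟩

/-- the inverse -/
noncomputable def TH (W : P → ℝ → ℝ) (p : P) : ℝ → ℝ := Function.invFun (XX W p)

theorem Good.TH_left (hW : Good W) (p : P) (θ : ℝ) : TH W p (XX W p θ) = θ :=
  Function.leftInverse_invFun (hW.XX_strictMono p).injective θ

theorem Good.TH_right (hW : Good W) (p : P) (x : ℝ) : XX W p (TH W p x) = x :=
  Function.rightInverse_invFun (hW.XX_surj p) x

theorem Good.TH_eq (hW : Good W) {p : P} {x θ : ℝ} (h : XX W p θ = x) : TH W p x = θ := by
  rw [← h, hW.TH_left]

theorem Good.TH_zero (hW : Good W) (p : P) : TH W p 0 = 0 := hW.TH_eq (XX_zero p)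

theorem Good.TH_add (hW : Good W) (p : P) (x : ℝ) :
    TH W p (x + XX W p (2 * Real.pi)) = TH W p x + 2 * Real.pi := by
  apply hW.TH_eq
  rw [hW.XX_add, hW.TH_right]

theorem Good.TH_neg (hW : Good W) (p : P) (x : ℝ) : TH W p (-x) = -TH W p x := by
  apply hW.TH_eq
  rw [hW.XX_neg, hW.TH_right]

theorem Good.TH_strictMono (hW : Good W) (p : P) : StrictMono (TH W p) := by
  intro x y hxy
  rw [← (hW.XX_strictMono p).lt_iff_lt, hW.TH_right, hW.TH_right]
  exact hxy

theorem Good.TH_cont (hW : Good W) : Continuous fun q : P × ℝ => TH W q.1 q.2 := by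
  rw [continuous_iff_continuousAt]
  rintro ⟨p, x⟩
  unfold ContinuousAt
  rw [tendsto_order]
  constructor
  · intro θ hθ
    simp only at hθ
    have h1 : XX W p θ < x := by
      rw [← hW.TH_right p x]
      exact hW.XX_strictMono p hθ
    have h2 : ContinuousAt (fun q : P × ℝ => XX W q.1 θ - q.2) (p, x) := by
      have := hW.XX_cont
      have h3 : Continuous (fun q : P × ℝ => XX W q.1 θ - q.2) := by
        have h4 : Continuous (fun q : P × ℝ => XX W q.1 θ) :=
          this.comp (Continuous.prodMk continuous_fst continuous_const)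
        exact h4.sub continuous_snd
      exact h3.continuousAt
    have h5 := h2.eventually (Iio_mem_nhds (show XX W p θ - x < 0 by linarith))
    filter_upwards [h5] with q hq
    rw [← (hW.XX_strictMono q.1).lt_iff_lt, hW.TH_right]
    have : XX W q.1 θ - q.2 < 0 := hq
    linarith
  · intro θ hθ
    simp only at hθ
    have h1 : x < XX W p θ := by
      rw [← hW.TH_right p x]
      exact hW.XX_strictMono p hθ
    have h2 : ContinuousAt (fun q : P × ℝ => XX W q.1 θ - q.2) (p, x) := by
      have := hW.XX_cont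
      have h3 : Continuous (fun q : P × ℝ => XX W q.1 θ - q.2) := by
        have h4 : Continuous (fun q : P × ℝ => XX W q.1 θ) :=
          this.comp (Continuous.prodMk continuous_fst continuous_const)
        exact h4.sub continuous_snd
      exact h3.continuousAt
    have h5 := h2.eventually (Ioi_mem_nhds (show 0 < XX W p θ - x by linarith))
    filter_upwards [h5] with q hq
    rw [← (hW.XX_strictMono q.1).lt_iff_lt, hW.TH_right]
    have : 0 < XX W q.1 θ - q.2 := hq
    linarith

theorem Good.TH_cont1 (hW : Good W) (p : P) : Continuous (TH W p) :=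
  hW.TH_cont.comp (Continuous.prodMk_right p)

theorem Good.TH_deriv (hW : Good W) (p : P) (x : ℝ) :
    HasDerivAt (TH W p) (W p (TH W p x))⁻¹ x :=
  HasDerivAt.of_local_left_inverse (hW.TH_cont1 p).continuousAt (hW.XX_deriv p _)
    (hW.pos p _).ne' (Eventually.of_forall fun y => hW.TH_right p y)

end Pool.Agent.Helper61.NLS
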