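import Mathlib

/-! The auxiliary function `K`. -/

set_option autoImplicit false
open MeasureTheory Topology Filter Set

namespace Pool.Agent.Helper61.NLS

/-- the denominator -/
def den (a z s : ℝ) : ℝ := 1 - a * (z + s * (1 - z))

/-- the average of `1/(1-at)` over `t ∈ [z,1]` -/
noncomputable def K (a z : ℝ) : ℝ := ∫ s in (0 : ℝ)..1, (den a z s)⁻¹

theorem den_cont_s (a z : ℝ) : Continuous (den a z) := by
  unfold den; fun_prop

theorem t_mem {z s : ℝ} (hz : z ∈ Icc (0 : ℝ) 1) (hs : s ∈ Icc (0 : ℝ) 1) :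
    z + s * (1 - z) ∈ Icc (0 : ℝ) 1 := by
  obtain ⟨h1, h2⟩ := hz
  obtain ⟨h3, h4⟩ := hs
  constructor
  · nlinarith
  · nlinarith

theorem den_ge {a z s : ℝ} (ha : 0 ≤ a) (hz : z ∈ Icc (0 : ℝ) 1) (hs : s ∈ Icc (0 : ℝ) 1) :
    1 - a ≤ den a z s := by
  have := (t_mem hz hs).2
  unfold den
  nlinarith

theorem den_le {a z s : ℝ} (ha : 0 ≤ a) (hz : z ∈ Icc (0 : ℝ) 1) (hs : s ∈ Icc (0 : ℝ) 1) :
    den a z s ≤ 1 := by
  have := (t_mem hz hs).1
  unfold den
  nlinarith

theorem inv_den_int {a z : ℝ} (ha : 0 ≤ a) (ha1 : a < 1) (hz : z ∈ Icc (0 : ℝ) 1) :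
    IntervalIntegrable (fun s => (den a z s)⁻¹) volume 0 1 := by
  apply ContinuousOn.intervalIntegrable
  rw [uIcc_of_le zero_le_one]
  apply ContinuousOn.inv₀ (den_cont_s a z).continuousOn
  intro s hs
  have := den_ge ha hz hs
  linarith

theorem K_ge_one {a z : ℝ} (ha : 0 ≤ a) (ha1 : a < 1) (hz : z ∈ Icc (0 : ℝ) 1) : 1 ≤ K a z := by
  have h1 : ∫ _ in (0 : ℝ)..1, (1 : ℝ) = 1 := by simp
  have h2 : ∫ _ in (0 : ℝ)..1, (1 : ℝ) ≤ ∫ s in (0 : ℝ)..1, (den a z s)⁻¹ := by
    apply intervalIntegral.integral_mono_on zero_le_one (by simp) (inv_den_int ha ha1 hz)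
    intro s hs
    have h2 := den_ge ha hz hs
    have h3 := den_le ha hz hs
    exact (one_le_inv₀ (by linarith)).2 h3
  unfold K
  linarith

theorem K_le {a z : ℝ} (ha : 0 ≤ a) (ha1 : a < 1) (hz : z ∈ Icc (0 : ℝ) 1) :
    K a z ≤ (1 - a)⁻¹ := by
  have h1 : ∫ _ in (0 : ℝ)..1, (1 - a)⁻¹ = (1 - a)⁻¹ := by simp
  have h2 : ∫ s in (0 : ℝ)..1, (den a z s)⁻¹ ≤ ∫ _ in (0 : ℝ)..1, (1 - a)⁻¹ := by
    apply intervalIntegral.integral_mono_on zero_le_one (inv_den_int ha ha1 hz) (by simp)
    intro s hs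
    have h2 := den_ge ha hz hs
    exact inv_anti₀ (by linarith) h2
  unfold K
  linarith

/-- strict monotonicity in `a` -/
theorem K_lt {a b z : ℝ} (ha : 0 < a) (hab : a < b) (hb : b < 1) (hz : z ∈ Icc (0 : ℝ) 1) :
    K a z < K b z := by
  unfold K
  apply intervalIntegral.integral_lt_integral_of_continuousOn_of_le_of_exists_lt zero_lt_one
  · apply ContinuousOn.inv₀ (den_cont_s a z).continuousOn
    intro s hs
    have := den_ge ha.le hz hs
    linarith
  · apply ContinuousOn.inv₀ (den_cont_s b z).continuousOn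
    intro s hs
    have := den_ge (ha.le.trans hab.le) hz hs
    linarith
  · intro s hs
    have hs' : s ∈ Icc (0 : ℝ) 1 := Ioc_subset_Icc_self hs
    have h1 := den_ge (ha.le.trans hab.le) hz hs'
    apply inv_anti₀ (by linarith)
    have h2 := (t_mem hz hs').1
    unfold den
    nlinarith
  · refine ⟨1, ⟨zero_le_one, le_rfl⟩, ?_⟩
    have e1 : den a z 1 = 1 - a := by unfold den; ring
    have e2 : den b z 1 = 1 - b := by unfold den; ring
    rw [e1, e2]
    apply inv_strictAnti₀ <;> linarith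

/-- monotonicity in `z` -/
theorem K_mono_z {a z w : ℝ} (ha : 0 ≤ a) (ha1 : a < 1) (hz : z ∈ Icc (0 : ℝ) 1)
    (hw : w ∈ Icc (0 : ℝ) 1) (hzw : z ≤ w) : K a z ≤ K a w := by
  unfold K
  apply intervalIntegral.integral_mono_on zero_le_one (inv_den_int ha ha1 hz)
    (inv_den_int ha ha1 hw)
  intro s hs
  have h1 := den_ge ha hw hs
  apply inv_anti₀ (by linarith)
  unfold den
  obtain ⟨h3, h4⟩ := hs
  have : (w - z) * (1 - s) ≥ 0 := mul_nonneg (by linarith) (by linarith)
  nlinarith

/-- closed form -/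
theorem K_log {a z : ℝ} (ha : 0 < a) (ha1 : a < 1) (hz : z < a⁻¹) :
    a * (1 - z) * K a z = Real.log (1 - a * z) - Real.log (1 - a) := by
  have hza : a * z < 1 := by
    have := mul_lt_mul_of_pos_left hz ha
    rwa [mul_inv_cancel₀ ha.ne'] at this
  have hpos : ∀ s ∈ Icc (0 : ℝ) 1, 0 < den a z s := by
    intro s hs
    obtain ⟨h1, h2⟩ := hs
    unfold den
    have e : 1 - a * (z + s * (1 - z)) = (1 - s) * (1 - a * z) + s * (1 - a) := by ring
    rw [e]
    rcases h1.eq_or_lt with h | h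
    · rw [← h]; nlinarith
    · have := mul_pos h (show 0 < 1 - a by linarith)
      have := mul_nonneg (show 0 ≤ 1 - s by linarith) (show 0 ≤ 1 - a * z by linarith)
      linarith
  have hd : ∀ s ∈ uIcc (0 : ℝ) 1, HasDerivAt (fun s => -Real.log (den a z s))
      (a * (1 - z) * (den a z s)⁻¹) s := by
    intro s hs
    rw [uIcc_of_le zero_le_one] at hs
    have h1 : HasDerivAt (den a z) (-(a * (1 - z))) s := by
      unfold den
      have := (((hasDerivAt_id s).mul_const (1 - z)).const_add z).const_mul a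
      have h2 := this.const_sub 1
      refine h2.congr_deriv ?_
      ring
    have h3 := (h1.log (hpos s hs).ne').neg
    refine h3.congr_deriv ?_
    have := (hpos s hs).ne'
    field_simp
  have hint : IntervalIntegrable (fun s => a * (1 - z) * (den a z s)⁻¹) volume 0 1 := by
    apply ContinuousOn.intervalIntegrable
    rw [uIcc_of_le zero_le_one]
    apply ContinuousOn.mul continuousOn_const
    apply ContinuousOn.inv₀ (den_cont_s a z).continuousOn
    intro s hs
    exact (hpos s hs).ne'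
  have h := intervalIntegral.integral_eq_sub_of_hasDerivAt hd hint
  rw [intervalIntegral.integral_const_mul] at h
  unfold K
  rw [h]
  have e1 : den a z 1 = 1 - a := by unfold den; ring
  have e0 : den a z 0 = 1 - a * z := by unfold den; ring
  rw [e1, e0]; ring

/-- differentiability in `z` -/
theorem K_deriv {a z : ℝ} (ha : 0 < a) (ha1 : a < 1) (hz : z ∈ Icc (0 : ℝ) 1) :
    ∃ K', HasDerivAt (K a) K' z ∧ K a z - (1 - z) * K' = (1 - a * z)⁻¹ := by
  obtain ⟨ε, hε, hεa⟩ : ∃ ε : ℝ, 0 < ε ∧ ε ≤ (1 - a) / 2 := ⟨(1 - a) / 2, by linarith, le_rfl⟩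
  have hlow : ∀ w ∈ Metric.ball z ε, ∀ s ∈ Icc (0 : ℝ) 1, (1 - a) / 2 ≤ den a w s := by
    intro w hw s hs
    rw [Metric.mem_ball, Real.dist_eq, abs_lt] at hw
    obtain ⟨h1, h2⟩ := hs
    have hw2 : w ≤ 1 + ε := by linarith [hz.2]
    unfold den
    have e : a * (w + s * (1 - w)) = a * ((1 - s) * w + s) := by ring
    rw [e]
    have h3 : (1 - s) * w + s ≤ 1 + ε := by
      have := mul_le_mul_of_nonneg_left hw2 (show 0 ≤ 1 - s by linarith)
      nlinarith
    have h4 := mul_le_mul_of_nonneg_left h3 ha.le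
    nlinarith
  have hFc : ∀ w ∈ Metric.ball z ε, ContinuousOn (fun s => (den a w s)⁻¹) (Icc (0 : ℝ) 1) := by
    intro w hw
    apply ContinuousOn.inv₀ (den_cont_s a w).continuousOn
    intro s hs
    have := hlow w hw s hs
    linarith
  have key := intervalIntegral.hasDerivAt_integral_of_dominated_loc_of_deriv_le
    (μ := volume) (a := (0 : ℝ)) (b := 1) (F := fun w s => (den a w s)⁻¹)
    (F' := fun w s => a * (1 - s) / (den a w s) ^ 2) (x₀ := z) (s := Metric.ball z ε)
    (bound := fun _ => a / ((1 - a) / 2) ^ 2) (Metric.ball_mem_nhds z hε) ?_ ?_ ?_ ?_ ?_ ?_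
  · obtain ⟨-, hd⟩ := key
    refine ⟨_, hd, ?_⟩
    -- identity by differentiating the closed form
    have hz1 : z < a⁻¹ := lt_of_le_of_lt hz.2 ((one_lt_inv₀ ha).2 ha1)
    have hev : (fun w => a * (1 - w) * K a w) =ᶠ[𝓝 z]
        fun w => Real.log (1 - a * w) - Real.log (1 - a) := by
      filter_upwards [Iio_mem_nhds hz1] with w hw
      exact K_log ha ha1 hw
    have hza : 0 < 1 - a * z := by
      have := mul_lt_mul_of_pos_left hz1 ha
      rw [mul_inv_cancel₀ ha.ne'] at this
      linarith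
    have d1 : HasDerivAt (fun w => Real.log (1 - a * w) - Real.log (1 - a))
        (-a / (1 - a * z)) z := by
      have h1 : HasDerivAt (fun w => 1 - a * w) (-a) z := by
        simpa using ((hasDerivAt_id z).const_mul a).const_sub 1
      exact (h1.log hza.ne').sub_const _
    have h2 : HasDerivAt (fun w => a * (1 - w)) (-a) z := by
      have := ((hasDerivAt_id z).const_sub 1).const_mul a
      refine this.congr_deriv ?_
      ring
    have d2 : HasDerivAt (fun w => a * (1 - w) * K a w)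
      (-a * K a z + a * (1 - z) * ∫ t in (0 : ℝ)..1, a * (1 - t) / den a z t ^ 2) z := h2.mul hd
    have d3 := d1.congr_of_eventuallyEq hev
    have d4 := d2.unique d3
    have hne : a ≠ 0 := ha.ne'
    have hzn := hza.ne'
    generalize (∫ t in (0 : ℝ)..1, a * (1 - t) / den a z t ^ 2) = I at d4 ⊢
    generalize K a z = k at d4 ⊢
    field_simp at d4 ⊢
    linarith
  · filter_upwards [Metric.ball_mem_nhds z hε] with w hw
    rw [uIoc_of_le zero_le_one]
    exact ((hFc w hw).mono Ioc_subset_Icc_self).aestronglyMeasurable measurableSet_Ioc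
  · apply ContinuousOn.intervalIntegrable
    rw [uIcc_of_le zero_le_one]
    exact hFc z (Metric.mem_ball_self hε)
  · rw [uIoc_of_le zero_le_one]
    apply ContinuousOn.aestronglyMeasurable _ measurableSet_Ioc
    apply ContinuousOn.mono _ Ioc_subset_Icc_self
    apply ContinuousOn.div (by fun_prop) ((den_cont_s a z).continuousOn.pow 2)
    intro s hs
    have := hlow z (Metric.mem_ball_self hε) s hs
    have h3 : 0 < (1 - a) / 2 := by linarith
    have h2 : 0 < den a z s := by linarith
    exact pow_ne_zero 2 h2.ne'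
  · filter_upwards with s hs w hw
    rw [uIoc_of_le zero_le_one] at hs
    have h1 := hlow w hw s (Ioc_subset_Icc_self hs)
    have h2 : 0 < (1 - a) / 2 := by linarith
    have h3 : 0 < den a w s := by linarith
    rw [norm_div, norm_mul, Real.norm_of_nonneg ha.le, norm_pow, Real.norm_of_nonneg h3.le,
      Real.norm_of_nonneg (show 0 ≤ 1 - s by linarith [hs.2])]
    apply div_le_div₀ ha.le _ (pow_pos h2 2) (pow_le_pow_left₀ h2.le h1 2)
    nlinarith [hs.1]
  · exact intervalIntegrable_const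
  · filter_upwards with s hs w hw
    rw [uIoc_of_le zero_le_one] at hs
    have h1 := hlow w hw s (Ioc_subset_Icc_self hs)
    have h3 : den a w s ≠ 0 := by linarith
    have h4 : HasDerivAt (fun w => den a w s) (-(a * (1 - s))) w := by
      unfold den
      have h5 : HasDerivAt (fun w : ℝ => w + s * (1 - w)) (1 - s) w := by
        have := (hasDerivAt_id w).add (((hasDerivAt_id w).const_sub 1).const_mul s)
        refine this.congr_deriv ?_
        ring
      exact (h5.const_mul a).const_sub 1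
    have h6 := h4.inv h3
    refine h6.congr_deriv ?_
    rw [neg_neg]

/-- joint continuity -/
theorem K_cont {P : Type*} [TopologicalSpace P] {α ζ : P → ℝ} (hα : Continuous α)
    (hζ : Continuous ζ) (h0 : ∀ p, 0 ≤ α p) (h1 : ∀ p, α p < 1)
    (hz : ∀ p, ζ p ∈ Icc (0 : ℝ) 1) : Continuous fun p => K (α p) (ζ p) := by
  have e : (fun p => K (α p) (ζ p)) =
      fun p => ∫ s in (0 : ℝ)..1, (max (den (α p) (ζ p) s) (1 - α p))⁻¹ := by
    funext p
    unfold K
    apply intervalIntegral.integral_congr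
    intro s hs
    rw [uIcc_of_le zero_le_one] at hs
    have := den_ge (h0 p) (hz p) hs
    simp only
    rw [max_eq_left this]
  rw [e]
  apply intervalIntegral.continuous_parametric_intervalIntegral_of_continuous'
  apply Continuous.inv₀
  · unfold den
    fun_prop
  · rintro ⟨p, s⟩
    have := h1 p
    have h2 := le_max_right (den (α p) (ζ p) s) (1 - α p)
    simp only
    intro h
    rw [h] at h2
    linarith

/-- `K a z ≥ -log(1-a)` -/
theorem K_ge_log {a z : ℝ} (ha : 0 < a) (ha1 : a < 1) (hz : z ∈ Icc (0 : ℝ) 1) :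
    -Real.log (1 - a) ≤ K a z := by
  have h1 := K_mono_z ha.le ha1 ⟨le_rfl, zero_le_one⟩ hz hz.1
  have h2 := K_log ha ha1 (z := 0) (by positivity)
  have h3 : Real.log (1 - a * 0) = 0 := by simp
  rw [h3] at h2
  have h4 : 0 ≤ K a 0 := by
    have := K_ge_one ha.le ha1 (z := 0) ⟨le_rfl, zero_le_one⟩
    linarith
  nlinarith

end Pool.Agent.Helper61.NLS
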