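import Pool.Agent.Helper61.NLS.Var

/-! Local minimality forces local convexity. -/

set_option autoImplicit false
open MeasureTheory Topology Filter Set

namespace Pool.Agent.Helper61.NLS

theorem Qr_strict {L : ℝ} {p : PP} (hT : Tp p = L) {r s : ℝ} (h0 : 0 ≤ r)
    (hrs : r < s) (h1 : s * p.1.1 < 1) : Qr L p r < Qr L p s := by
  have hL : 0 < L := by rw [← hT]; exact Tp_pos p
  have h1r : r * p.1.1 < 1 := (mul_le_mul_of_nonneg_right hrs.le p.2.1.le).trans_lt h1
  have hs0 : 0 ≤ s := h0.trans hrs.le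
  have c1 := ph_cont1 p
  have c3 : ∀ t : ℝ, 0 ≤ t → t * p.1.1 < 1 → Continuous (fun x => -Real.log (1 - t * ph p x ^ 2)) := by
    intro t ht ht1
    apply Continuous.neg
    apply Continuous.log (by fun_prop)
    intro x
    have := r_ph_lt ht ht1 x
    linarith
  unfold Qr
  apply intervalIntegral.integral_lt_integral_of_continuousOn_of_le_of_exists_lt hL
    (c3 r h0 h1r).continuousOn (c3 s hs0 h1).continuousOn
  · intro x _
    have g1 := r_ph_lt hs0 h1 x
    apply neg_le_neg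
    apply Real.log_le_log (by linarith)
    have := mul_le_mul_of_nonneg_right hrs.le (sq_nonneg (ph p x))
    linarith
  · refine ⟨XX WW p (Real.pi / 2), ⟨?_, ?_⟩, ?_⟩
    · have := (WW_good.XX_strictMono p).monotone (show (0 : ℝ) ≤ Real.pi / 2 by positivity)
      rwa [XX_zero] at this
    · rw [← hT]
      exact (WW_good.XX_strictMono p).monotone
        (show Real.pi / 2 ≤ 2 * Real.pi by linarith [Real.pi_pos])
    · have e : Th p (XX WW p (Real.pi / 2)) = Real.pi / 2 := WW_good.TH_left p _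
      have e2 : ph p (XX WW p (Real.pi / 2)) ^ 2 = p.1.1 := by
        rw [ph_sq, e, Real.sin_pi_div_two]; ring
      rw [e2]
      apply neg_lt_neg
      apply Real.log_lt_log (by linarith)
      have := mul_lt_mul_of_pos_right hrs p.2.1
      linarith

theorem local_step {a₁ a₂ L : ℝ} {pf : Icc a₁ a₂ → PP} (hpf : Continuous pf)
    (hfst : ∀ a, (pf a).1.1 = a) (hT : ∀ a, Tp (pf a) = L) (h1 : a₂ < 1)
    (a : Icc a₁ a₂)
    (hmin : ∃ δ > 0, ∀ (b : Icc a₁ a₂) (r : ℝ), 0 ≤ r → r * (pf b).1.1 < 1 →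
      Qr L (pf b) r = Qr L (pf a) 1 → Fr L (pf a) (pf b) r < δ →
      Hr L (pf a) 1 ≤ Hr L (pf b) r) :
    ∀ᶠ b in 𝓝 a, DD L (pf a) + ((1 - (pf b).1.2) - (1 - (pf a).1.2)) * Qr L (pf a) 1 ≤
      DD L (pf b) := by
  have hL : 0 < L := by rw [← hT a]; exact Tp_pos _
  obtain ⟨δ, hδ, hmin⟩ := hmin
  -- closeness of scaled waves
  have hF : ContinuousAt (fun q : Icc a₁ a₂ × ℝ => Fr L (pf a) (pf q.1) q.2) (a, 1) := by
    have h := (Fr_cont L (pf a)).comp
      (by fun_prop : Continuous fun q : Icc a₁ a₂ × ℝ => (pf q.1, q.2))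
    exact h.continuousAt
  have hF2 := hF.eventually (Iio_mem_nhds (show Fr L (pf a) (pf a) 1 < δ by
    rw [Fr_zero]; exact hδ))
  rw [nhds_prod_eq, Filter.eventually_prod_iff] at hF2
  obtain ⟨P1, hP1, P2, hP2, hP⟩ := hF2
  obtain ⟨ε₁, hε₁, hball⟩ := Metric.eventually_nhds_iff.1 hP2
  have ha2 : 0 < a₂ := by
    have := (pf a).2.1
    rw [hfst a] at this
    exact this.trans_le a.2.2
  obtain ⟨ε₂, hε₂, hε₂'⟩ : ∃ ε₂ : ℝ, 0 < ε₂ ∧ (1 + ε₂) * a₂ < 1 := by
    refine ⟨(1 - a₂) / (2 * a₂), ?_, ?_⟩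
    · apply div_pos <;> linarith
    · have : (1 + (1 - a₂) / (2 * a₂)) * a₂ = (1 + a₂) / 2 := by
        field_simp; ring
      rw [this]; linarith
  obtain ⟨ε, hε, hεa, hεb, hεc⟩ : ∃ ε : ℝ, 0 < ε ∧ ε < ε₁ ∧ ε ≤ ε₂ ∧ ε ≤ 1 := by
    refine ⟨min (ε₁ / 2) (min ε₂ 1), ?_, ?_, ?_, ?_⟩
    · apply lt_min (by linarith) (lt_min hε₂ one_pos)
    · exact (min_le_left _ _).trans_lt (by linarith)
    · exact (min_le_right _ _).trans (min_le_left _ _)
    · exact (min_le_right _ _).trans (min_le_right _ _)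
  have hr0 : 0 ≤ 1 - ε := by linarith
  have hadm : ∀ (b : Icc a₁ a₂) (r : ℝ), 0 ≤ r → r ≤ 1 + ε → r * (pf b).1.1 < 1 := by
    intro b r hr hr'
    rw [hfst b]
    have hb : b.1 ≤ a₂ := b.2.2
    calc r * b.1 ≤ r * a₂ := mul_le_mul_of_nonneg_left hb hr
      _ ≤ (1 + ε₂) * a₂ := mul_le_mul_of_nonneg_right (by linarith) ha2.le
      _ < 1 := hε₂'
  -- mass of scaled waves
  have hQc : ∀ r : ℝ, 0 ≤ r → r ≤ 1 + ε →
      Continuous (fun b : Icc a₁ a₂ => Qr L (pf b) r) := by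
    intro r hr hr'
    have h : Continuous (fun b : Icc a₁ a₂ =>
        (⟨(pf b, r), hr, hadm b r hr hr'⟩ : XR)) :=
      Continuous.subtype_mk (hpf.prodMk continuous_const) _
    exact (Qr_cont L).comp h
  have q1 : Qr L (pf a) (1 - ε) < Qr L (pf a) 1 :=
    Qr_strict (hT a) hr0 (by linarith) (hadm a 1 zero_le_one (by linarith))
  have q2 : Qr L (pf a) 1 < Qr L (pf a) (1 + ε) :=
    Qr_strict (hT a) zero_le_one (by linarith) (hadm a (1 + ε) (by linarith) le_rfl)
  have n1 := (hQc (1 - ε) hr0 (by linarith)).continuousAt.eventually (Iio_mem_nhds q1)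
  have n2 := (hQc (1 + ε) (by linarith) le_rfl).continuousAt.eventually (Ioi_mem_nhds q2)
  filter_upwards [n1, n2, hP1] with b hb1 hb2 hb3
  have hb1' : Qr L (pf b) (1 - ε) < Qr L (pf a) 1 := hb1
  have hb2' : Qr L (pf a) 1 < Qr L (pf b) (1 + ε) := hb2
  -- intermediate value
  have hcr : Continuous (fun r : Icc (1 - ε) (1 + ε) => Qr L (pf b) r.1) := by
    have h : Continuous (fun r : Icc (1 - ε) (1 + ε) =>
        (⟨(pf b, r.1), hr0.trans r.2.1, hadm b r.1 (hr0.trans r.2.1) r.2.2⟩ : XR)) :=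
      Continuous.subtype_mk (continuous_const.prodMk continuous_subtype_val) _
    exact (Qr_cont L).comp h
  have : PreconnectedSpace (Icc (1 - ε) (1 + ε)) :=
    Subtype.preconnectedSpace isPreconnected_Icc
  obtain ⟨r, hr⟩ := mem_range_of_exists_le_of_exists_ge hcr
    ⟨⟨1 - ε, le_rfl, by linarith⟩, hb1'.le⟩ ⟨⟨1 + ε, by linarith, le_rfl⟩, hb2'.le⟩
  have hr' : Qr L (pf b) r.1 = Qr L (pf a) 1 := hr
  have hrr0 : 0 ≤ r.1 := hr0.trans r.2.1
  have hrr1 := hadm b r.1 hrr0 r.2.2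
  have hclose : Fr L (pf a) (pf b) r.1 < δ := by
    apply hP hb3
    apply hball
    rw [Real.dist_eq, abs_lt]
    constructor
    · linarith [r.2.1]
    · linarith [r.2.2]
  have k1 := hmin b r.1 hrr0 hrr1 hr' hclose
  have k2 := scaling hL (hT b) hrr0 hrr1
  rw [hr'] at k2
  unfold DD at k2 ⊢
  linarith

/-- a function with local supporting lines has monotone slopes -/
theorem conv_lemma {a₁ a₂ : ℝ} (h : a₁ ≤ a₂) {D w Q : Icc a₁ a₂ → ℝ}
    (hD : Continuous D) (hw : Continuous w) (hmono : StrictMono w)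
    (hloc : ∀ a, ∀ᶠ b in 𝓝 a, D a + (w b - w a) * Q a ≤ D b) :
    Q ⟨a₁, le_rfl, h⟩ ≤ Q ⟨a₂, h, le_rfl⟩ := by
  by_contra hcon
  push Not at hcon
  obtain ⟨m, hm1, hm2⟩ := exists_between hcon
  have hRc : Continuous (fun c => D c - m * w c) := hD.sub (continuous_const.mul hw)
  have hloc' : ∀ a, ∀ᶠ b in 𝓝 a, (D a - m * w a) + (w b - w a) * (Q a - m) ≤ D b - m * w b := by
    intro a
    filter_upwards [hloc a] with b hb
    linarith
  set M : Set (Icc a₁ a₂) := {c | ∀ b, D b - m * w b ≤ D c - m * w c} with hM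
  have : Nonempty (Icc a₁ a₂) := ⟨⟨a₁, le_rfl, h⟩⟩
  have hMne : M.Nonempty := by
    obtain ⟨c, -, hc⟩ := isCompact_univ.exists_isMaxOn (α := ℝ) (β := Icc a₁ a₂)
      (univ_nonempty) hRc.continuousOn
    exact ⟨c, fun b => hc (mem_univ b)⟩
  have hQm : ∀ c ∈ M, Q c = m := by
    intro c hc
    rcases lt_trichotomy (Q c) m with hlt | heq | hgt
    · exfalso
      have hc1 : (⟨a₁, le_rfl, h⟩ : Icc a₁ a₂) < c := by
        rcases (show (⟨a₁, le_rfl, h⟩ : Icc a₁ a₂) ≤ c from c.2.1).eq_or_lt with e | e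
        · rw [← e] at hlt
          linarith
        · exact e
      have := nhdsLT_neBot_of_exists_lt ⟨_, hc1⟩
      have h1 := (hloc' c).filter_mono (nhdsWithin_le_nhds (s := Iio c))
      obtain ⟨b, hb1, hb2⟩ := (h1.and self_mem_nhdsWithin).exists
      have h2 := hmono (show b < c from hb2)
      have h3 := hc b
      nlinarith
    · exact heq
    · exfalso
      have hc1 : c < (⟨a₂, h, le_rfl⟩ : Icc a₁ a₂) := by
        rcases (show c ≤ (⟨a₂, h, le_rfl⟩ : Icc a₁ a₂) from c.2.2).eq_or_lt with e | e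
        · rw [e] at hgt
          linarith
        · exact e
      have := nhdsGT_neBot_of_exists_gt ⟨_, hc1⟩
      have h1 := (hloc' c).filter_mono (nhdsWithin_le_nhds (s := Ioi c))
      obtain ⟨b, hb1, hb2⟩ := (h1.and self_mem_nhdsWithin).exists
      have h2 := hmono (show c < b from hb2)
      have h3 := hc b
      nlinarith
  have hMclosed : IsClosed M := by
    have : M = ⋂ b, {c | D b - m * w b ≤ D c - m * w c} := by
      ext c
      simp [hM]
    rw [this]
    exact isClosed_iInter fun b => isClosed_le continuous_const hRc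
  have hMopen : IsOpen M := by
    rw [isOpen_iff_mem_nhds]
    intro c hc
    filter_upwards [hloc' c] with b hb
    rw [hQm c hc, sub_self, mul_zero, add_zero] at hb
    intro b'
    exact (hc b').trans hb
  have : PreconnectedSpace (Icc a₁ a₂) := Subtype.preconnectedSpace isPreconnected_Icc
  have huniv := IsClopen.eq_univ ⟨hMclosed, hMopen⟩ hMne
  have h5 := hQm ⟨a₁, le_rfl, h⟩ (by rw [huniv]; trivial)
  linarith

end Pool.Agent.Helper61.NLS
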