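import Pool.Agent.Helper61.NLS.Fam
import Pool.Agent.Helper61.NLS.AsymB

/-! The mass along the family. -/

set_option autoImplicit false
open MeasureTheory Topology Filter Set

namespace Pool.Agent.Helper61.NLS

theorem four_fold {g : ℝ → ℝ} (hg : Continuous g) (h1 : ∀ θ, g (θ + Real.pi) = g θ)
    (h2 : ∀ θ, g (Real.pi - θ) = g θ) :
    ∫ θ in (0 : ℝ)..(2 * Real.pi), g θ = 4 * ∫ θ in (0 : ℝ)..(Real.pi / 2), g θ := by
  have hi : ∀ a b : ℝ, IntervalIntegrable g volume a b := fun a b => hg.intervalIntegrable a b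
  have e1 : ∫ θ in (0 : ℝ)..(2 * Real.pi), g θ = (∫ θ in (0 : ℝ)..Real.pi, g θ) +
      ∫ θ in Real.pi..(2 * Real.pi), g θ :=
    (intervalIntegral.integral_add_adjacent_intervals (hi _ _) (hi _ _)).symm
  have e2 : ∫ θ in Real.pi..(2 * Real.pi), g θ = ∫ θ in (0 : ℝ)..Real.pi, g θ := by
    have h3 := intervalIntegral.integral_comp_add_right (a := 0) (b := Real.pi) g Real.pi
    rw [zero_add, show Real.pi + Real.pi = 2 * Real.pi by ring] at h3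
    rw [← h3]
    apply intervalIntegral.integral_congr
    intro θ _
    exact h1 θ
  have e3 : ∫ θ in (0 : ℝ)..Real.pi, g θ = (∫ θ in (0 : ℝ)..(Real.pi / 2), g θ) +
      ∫ θ in (Real.pi / 2)..Real.pi, g θ :=
    (intervalIntegral.integral_add_adjacent_intervals (hi _ _) (hi _ _)).symm
  have e4 : ∫ θ in (Real.pi / 2)..Real.pi, g θ = ∫ θ in (0 : ℝ)..(Real.pi / 2), g θ := by
    have h3 := intervalIntegral.integral_comp_sub_left (a := 0) (b := Real.pi / 2) g Real.pi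
    rw [sub_zero, show Real.pi - Real.pi / 2 = Real.pi / 2 by ring] at h3
    rw [← h3]
    apply intervalIntegral.integral_congr
    intro θ _
    exact h2 θ
  rw [e1, e2, e3, e4]
  ring

/-- the mass -/
noncomputable def Qp (p : PP) : ℝ := ∫ x in (0 : ℝ)..(Tp p), -Real.log (1 - ph p x ^ 2)

theorem Qp_eq (p : PP) : Qp p = ∫ θ in (0 : ℝ)..(2 * Real.pi), ell p.1.1 θ * WW p θ := by
  have hc : Continuous (fun θ => ell p.1.1 θ * WW p θ) :=
    (ell_cont p.2.1.le p.2.2.1).mul (WW_good.cont1 p)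
  have hd : ∀ x ∈ uIcc 0 (Tp p), HasDerivAt
      (fun x => ∫ θ in (0 : ℝ)..(Th p x), ell p.1.1 θ * WW p θ)
      (-Real.log (1 - ph p x ^ 2)) x := by
    intro x _
    have h1 : HasDerivAt (fun y => ∫ θ in (0 : ℝ)..y, ell p.1.1 θ * WW p θ)
        (ell p.1.1 (Th p x) * WW p (Th p x)) (Th p x) :=
      intervalIntegral.integral_hasDerivAt_right (hc.intervalIntegrable _ _)
        (hc.stronglyMeasurableAtFilter _ _) hc.continuousAt
    have h2 := HasDerivAt.comp (h₂ := fun y => ∫ θ in (0 : ℝ)..y, ell p.1.1 θ * WW p θ)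
      (h := Th p) x h1 (Th_deriv p x)
    refine h2.congr_deriv ?_
    rw [ph_sq]
    unfold WW ell
    have := (GG_pos p (Th p x)).ne'
    field_simp
  unfold Qp
  rw [intervalIntegral.integral_eq_sub_of_hasDerivAt hd]
  · have e1 : Th p (Tp p) = 2 * Real.pi := by
      have := Th_add p 0
      rwa [zero_add, Th_zero, zero_add] at this
    rw [e1, Th_zero]
    simp
  · apply Continuous.intervalIntegrable
    apply Continuous.neg
    have h1 : Continuous (ph p) := ph_cont.comp (Continuous.prodMk_right p)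
    apply Continuous.log (by fun_prop)
    intro x
    have := ph_sq_lt p x
    linarith

theorem WW_ge (p : PP) (θ : ℝ) : (√p.1.2)⁻¹ * VV p.1.1 θ ≤ WW p θ := by
  obtain ⟨a0, a1, a2⟩ := p.2
  have hk := K_ge_one a0.le a1 (sin_sq_mem θ)
  have h1 : GG p θ ≤ √p.1.2 * √(K p.1.1 (Real.sin θ ^ 2)) := by
    rw [← Real.sqrt_mul (by linarith)]
    unfold GG
    apply Real.sqrt_le_sqrt
    linarith
  have h2 := inv_anti₀ (GG_pos p θ) h1
  rw [mul_inv] at h2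
  exact h2

theorem WW_le (p : PP) (θ : ℝ) {Ωs : ℝ} (h0 : 1 < Ωs) (h : Ωs < p.1.2) :
    WW p θ ≤ (√(1 - Ωs⁻¹))⁻¹ * ((√p.1.2)⁻¹ * VV p.1.1 θ) := by
  obtain ⟨a0, a1, a2⟩ := p.2
  have hk := K_ge_one a0.le a1 (sin_sq_mem θ)
  have hs : 0 < 1 - Ωs⁻¹ := by
    have := inv_lt_one_of_one_lt₀ h0
    linarith
  have h1 : √(1 - Ωs⁻¹) * (√p.1.2 * √(K p.1.1 (Real.sin θ ^ 2))) ≤ GG p θ := by
    rw [← Real.sqrt_mul (by linarith), ← Real.sqrt_mul hs.le]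
    unfold GG
    apply Real.sqrt_le_sqrt
    have h3 : 1 ≤ Ωs⁻¹ * (p.1.2 * K p.1.1 (Real.sin θ ^ 2)) := by
      have h4 : 1 ≤ Ωs⁻¹ * p.1.2 := by
        rw [inv_mul_eq_div, one_le_div (by linarith)]
        exact h.le
      have h5 := mul_le_mul h4 hk zero_le_one (by linarith)
      linarith
    nlinarith
  have hpos : 0 < √(1 - Ωs⁻¹) * (√p.1.2 * √(K p.1.1 (Real.sin θ ^ 2))) := by
    apply mul_pos (Real.sqrt_pos.2 hs)
    apply mul_pos (Real.sqrt_pos.2 (by linarith)) (Real.sqrt_pos.2 (by linarith))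
  have h2 := inv_anti₀ hpos h1
  rw [mul_inv, mul_inv] at h2
  exact h2

theorem VV_fold {a : ℝ} (a0 : 0 < a) (a1 : a < 1) :
    ∫ θ in (0 : ℝ)..(2 * Real.pi), VV a θ = 4 * ∫ θ in (0 : ℝ)..(Real.pi / 2), VV a θ := by
  apply four_fold (VV_cont a0.le a1)
  · intro θ; unfold VV; rw [Real.sin_add_pi, neg_sq]
  · intro θ; unfold VV; rw [Real.sin_pi_sub]

theorem ellVV_fold {a : ℝ} (a0 : 0 < a) (a1 : a < 1) :
    ∫ θ in (0 : ℝ)..(2 * Real.pi), ell a θ * VV a θ =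
      4 * ∫ θ in (0 : ℝ)..(Real.pi / 2), ell a θ * VV a θ := by
  have hc : Continuous (fun θ => ell a θ * VV a θ) := (ell_cont a0.le a1).mul (VV_cont a0.le a1)
  apply four_fold hc
  · intro θ; unfold VV ell; rw [Real.sin_add_pi, neg_sq]
  · intro θ; unfold VV ell; rw [Real.sin_pi_sub]

theorem Q_compare {m₁ m₂ Ωs L : ℝ} {p₁ p₂ : PP} (hΩ : 1 < Ωs) (hm₁ : 0 < m₁) (hm₂ : 0 < m₂)
    (hm : m₂ < (1 - Ωs⁻¹) * m₁)
    (h1 : m₁ * (∫ θ in (0 : ℝ)..(Real.pi / 2), VV p₁.1.1 θ) ≤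
      (∫ θ in (0 : ℝ)..(Real.pi / 2), ell p₁.1.1 θ * VV p₁.1.1 θ))
    (h2 : (∫ θ in (0 : ℝ)..(Real.pi / 2), ell p₂.1.1 θ * VV p₂.1.1 θ) ≤
      m₂ * (∫ θ in (0 : ℝ)..(Real.pi / 2), VV p₂.1.1 θ))
    (hΩ₁ : Ωs < p₁.1.2) (hΩ₂ : Ωs < p₂.1.2) (hT₁ : Tp p₁ = L) (hT₂ : Tp p₂ = L) :
    Qp p₂ < Qp p₁ := by
  have hpi := Real.pi_pos
  have hs : 0 < 1 - Ωs⁻¹ := by
    have := inv_lt_one_of_one_lt₀ hΩ
    linarith
  have hL : 0 < L := by rw [← hT₁]; exact Tp_pos p₁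
  set κ := √(1 - Ωs⁻¹) with hκ
  have κ0 : 0 < κ := Real.sqrt_pos.2 hs
  have κ2 : κ ^ 2 = 1 - Ωs⁻¹ := Real.sq_sqrt hs.le
  -- first wave
  have s1 : 0 < √p₁.1.2 := Real.sqrt_pos.2 (by linarith [p₁.2.2.2])
  have s2 : 0 < √p₂.1.2 := Real.sqrt_pos.2 (by linarith [p₂.2.2.2])
  have c1 := ell_cont p₁.2.1.le p₁.2.2.1
  have d1 := VV_cont p₁.2.1.le p₁.2.2.1
  have c2 := ell_cont p₂.2.1.le p₂.2.2.1
  have d2 := VV_cont p₂.2.1.le p₂.2.2.1
  have w1 := WW_good.cont1 p₁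
  have w2 := WW_good.cont1 p₂
  have q1 : (√p₁.1.2)⁻¹ * (∫ θ in (0 : ℝ)..(2 * Real.pi), ell p₁.1.1 θ * VV p₁.1.1 θ) ≤ Qp p₁ := by
    rw [Qp_eq, ← intervalIntegral.integral_const_mul]
    apply intervalIntegral.integral_mono_on (by positivity)
    · apply Continuous.intervalIntegrable; fun_prop
    · apply Continuous.intervalIntegrable; fun_prop
    · intro θ _
      have := mul_le_mul_of_nonneg_left (WW_ge p₁ θ) (ell_nonneg p₁.2.1.le p₁.2.2.1 θ)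
      linarith
  have t1 : κ * L ≤ (√p₁.1.2)⁻¹ * (∫ θ in (0 : ℝ)..(2 * Real.pi), VV p₁.1.1 θ) := by
    rw [← hT₁]
    unfold Tp XX
    rw [← intervalIntegral.integral_const_mul, ← intervalIntegral.integral_const_mul]
    apply intervalIntegral.integral_mono_on (by positivity)
    · apply Continuous.intervalIntegrable; fun_prop
    · apply Continuous.intervalIntegrable; fun_prop
    · intro θ _
      have h3 := WW_le p₁ θ hΩ hΩ₁
      have h4 := mul_le_mul_of_nonneg_left h3 κ0.le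
      rw [← mul_assoc, mul_inv_cancel₀ κ0.ne', one_mul] at h4
      exact h4
  -- second wave
  have q2 : κ * Qp p₂ ≤ (√p₂.1.2)⁻¹ *
      (∫ θ in (0 : ℝ)..(2 * Real.pi), ell p₂.1.1 θ * VV p₂.1.1 θ) := by
    rw [Qp_eq, ← intervalIntegral.integral_const_mul, ← intervalIntegral.integral_const_mul]
    apply intervalIntegral.integral_mono_on (by positivity)
    · apply Continuous.intervalIntegrable; fun_prop
    · apply Continuous.intervalIntegrable; fun_prop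
    · intro θ _
      have h3 := WW_le p₂ θ hΩ hΩ₂
      have h4 := mul_le_mul_of_nonneg_left h3 κ0.le
      rw [← mul_assoc, mul_inv_cancel₀ κ0.ne', one_mul] at h4
      have := mul_le_mul_of_nonneg_left h4 (ell_nonneg p₂.2.1.le p₂.2.2.1 θ)
      linarith
  have t2 : (√p₂.1.2)⁻¹ * (∫ θ in (0 : ℝ)..(2 * Real.pi), VV p₂.1.1 θ) ≤ L := by
    rw [← hT₂]
    unfold Tp XX
    rw [← intervalIntegral.integral_const_mul]
    apply intervalIntegral.integral_mono_on (by positivity)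
    · apply Continuous.intervalIntegrable; fun_prop
    · apply Continuous.intervalIntegrable; fun_prop
    · intro θ _
      exact WW_ge p₂ θ
  rw [ellVV_fold p₁.2.1 p₁.2.2.1] at q1
  rw [VV_fold p₁.2.1 p₁.2.2.1] at t1
  rw [ellVV_fold p₂.2.1 p₂.2.2.1] at q2
  rw [VV_fold p₂.2.1 p₂.2.2.1] at t2
  set V1 := ∫ θ in (0 : ℝ)..(Real.pi / 2), VV p₁.1.1 θ
  set V2 := ∫ θ in (0 : ℝ)..(Real.pi / 2), VV p₂.1.1 θ
  set E1 := ∫ θ in (0 : ℝ)..(Real.pi / 2), ell p₁.1.1 θ * VV p₁.1.1 θ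
  set E2 := ∫ θ in (0 : ℝ)..(Real.pi / 2), ell p₂.1.1 θ * VV p₂.1.1 θ
  have i1 : 0 < (√p₁.1.2)⁻¹ := inv_pos.2 s1
  have i2 : 0 < (√p₂.1.2)⁻¹ := inv_pos.2 s2
  have f1 : κ * (m₁ * L) ≤ Qp p₁ := by
    calc κ * (m₁ * L) = m₁ * (κ * L) := by ring
      _ ≤ m₁ * ((√p₁.1.2)⁻¹ * (4 * V1)) := mul_le_mul_of_nonneg_left t1 hm₁.le
      _ = (√p₁.1.2)⁻¹ * (4 * (m₁ * V1)) := by ring
      _ ≤ (√p₁.1.2)⁻¹ * (4 * E1) :=
          mul_le_mul_of_nonneg_left (mul_le_mul_of_nonneg_left h1 (by norm_num)) i1.le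
      _ ≤ _ := q1
  have f2 : κ * Qp p₂ ≤ m₂ * L := by
    calc κ * Qp p₂ ≤ (√p₂.1.2)⁻¹ * (4 * E2) := q2
      _ ≤ (√p₂.1.2)⁻¹ * (4 * (m₂ * V2)) :=
          mul_le_mul_of_nonneg_left (mul_le_mul_of_nonneg_left h2 (by norm_num)) i2.le
      _ = m₂ * ((√p₂.1.2)⁻¹ * (4 * V2)) := by ring
      _ ≤ _ := mul_le_mul_of_nonneg_left t2 hm₂.le
  have f3 : κ * Qp p₂ < κ * Qp p₁ := by
    calc κ * Qp p₂ ≤ m₂ * L := f2
      _ < (1 - Ωs⁻¹) * m₁ * L := mul_lt_mul_of_pos_right hm hL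
      _ = κ * (κ * (m₁ * L)) := by rw [← κ2]; ring
      _ ≤ κ * Qp p₁ := mul_le_mul_of_nonneg_left f1 κ0.le
  exact lt_of_mul_lt_mul_left f3 κ0.le

end Pool.Agent.Helper61.NLS
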