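import Pool.Agent.Helper61.NLS.Fam

/-! Scaling of the waves, continuity of the functionals, and the variational inequality. -/

set_option autoImplicit false
open MeasureTheory Topology Filter Set

namespace Pool.Agent.Helper61.NLS

/-- energy of `√r φ` -/
noncomputable def Hr (L : ℝ) (p : PP) (r : ℝ) : ℝ :=
  ∫ x in (0 : ℝ)..L, (r * ps p x ^ 2 + r * ph p x ^ 2 + Real.log (1 - r * ph p x ^ 2))

/-- mass of `√r φ` -/
noncomputable def Qr (L : ℝ) (p : PP) (r : ℝ) : ℝ :=
  ∫ x in (0 : ℝ)..L, -Real.log (1 - r * ph p x ^ 2)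

/-- squared distance from `√r φ` to a reference wave -/
noncomputable def Fr (L : ℝ) (p₀ p : PP) (r : ℝ) : ℝ :=
  ∫ x in (0 : ℝ)..L, ((√r * ps p x - ps p₀ x) ^ 2 + (√r * ph p x - ph p₀ x) ^ 2)

theorem ph_cont1 (p : PP) : Continuous (ph p) := ph_cont.comp (Continuous.prodMk_right p)
theorem ps_cont1 (p : PP) : Continuous (ps p) := ps_cont.comp (Continuous.prodMk_right p)

theorem r_ph_lt {p : PP} {r : ℝ} (h0 : 0 ≤ r) (h1 : r * p.1.1 < 1) (x : ℝ) :
    r * ph p x ^ 2 < 1 :=
  (mul_le_mul_of_nonneg_left (ph_sq_le p x) h0).trans_lt h1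

/-- region of admissible scalings -/
abbrev XR := {q : PP × ℝ // 0 ≤ q.2 ∧ q.2 * q.1.1.1 < 1}

theorem Qr_cont (L : ℝ) : Continuous fun q : XR => Qr L q.1.1 q.1.2 := by
  unfold Qr
  apply intervalIntegral.continuous_parametric_intervalIntegral_of_continuous'
  have h1 : Continuous (fun q : XR × ℝ => ph q.1.1.1 q.2) :=
    ph_cont.comp (by fun_prop : Continuous fun q : XR × ℝ => (q.1.1.1, q.2))
  apply Continuous.neg
  apply Continuous.log
  · apply continuous_const.sub
    exact (by fun_prop : Continuous fun q : XR × ℝ => q.1.1.2).mul (h1.pow 2)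
  · rintro ⟨q, x⟩
    have := r_ph_lt q.2.1 q.2.2 x
    have h2 : 1 - q.1.2 * ph q.1.1 x ^ 2 ≠ 0 := by linarith
    exact h2

theorem Fr_cont (L : ℝ) (p₀ : PP) : Continuous fun q : PP × ℝ => Fr L p₀ q.1 q.2 := by
  unfold Fr
  apply intervalIntegral.continuous_parametric_intervalIntegral_of_continuous'
  have h1 : Continuous (fun q : (PP × ℝ) × ℝ => ph q.1.1 q.2) :=
    ph_cont.comp (by fun_prop : Continuous fun q : (PP × ℝ) × ℝ => (q.1.1, q.2))
  have h2 : Continuous (fun q : (PP × ℝ) × ℝ => ps q.1.1 q.2) :=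
    ps_cont.comp (by fun_prop : Continuous fun q : (PP × ℝ) × ℝ => (q.1.1, q.2))
  have h3 : Continuous (fun q : (PP × ℝ) × ℝ => ph p₀ q.2) := (ph_cont1 p₀).comp continuous_snd
  have h4 : Continuous (fun q : (PP × ℝ) × ℝ => ps p₀ q.2) := (ps_cont1 p₀).comp continuous_snd
  have h5 : Continuous (fun q : (PP × ℝ) × ℝ => √q.1.2) := by fun_prop
  exact (((h5.mul h2).sub h4).pow 2).add (((h5.mul h1).sub h3).pow 2)

theorem Fr_zero (L : ℝ) (p₀ : PP) : Fr L p₀ p₀ 1 = 0 := by
  unfold Fr
  simp

/-- `H + ωQ` along the family -/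
noncomputable def DD (L : ℝ) (p : PP) : ℝ := Hr L p 1 + (1 - p.1.2) * Qr L p 1

theorem DD_cont (L : ℝ) : Continuous (DD L) := by
  unfold DD Hr Qr
  have h1 : Continuous (fun q : PP × ℝ => ph q.1 q.2) := ph_cont
  have h2 : Continuous (fun q : PP × ℝ => ps q.1 q.2) := ps_cont
  have h3 : Continuous (fun q : PP × ℝ => Real.log (1 - 1 * ph q.1 q.2 ^ 2)) := by
    apply Continuous.log
    · fun_prop
    · rintro ⟨q, x⟩
      have := ph_sq_lt q x
      have h2 : 1 - 1 * ph q x ^ 2 ≠ 0 := by linarith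
      exact h2
  apply Continuous.add
  · apply intervalIntegral.continuous_parametric_intervalIntegral_of_continuous'
    exact ((continuous_const.mul (h2.pow 2)).add (continuous_const.mul (h1.pow 2))).add h3
  · apply Continuous.mul (by fun_prop)
    apply intervalIntegral.continuous_parametric_intervalIntegral_of_continuous'
    exact h3.neg

/-- the Pohozaev type identity -/
theorem virial (p : PP) : ∫ x in (0 : ℝ)..(Tp p), (ps p x ^ 2 + ph p x ^ 2) =
    p.1.2 * ∫ x in (0 : ℝ)..(Tp p), ph p x ^ 2 / (1 - ph p x ^ 2) := by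
  have h1 := ph_cont1 p
  have h2 := ps_cont1 p
  have hne : ∀ x, 1 - ph p x ^ 2 ≠ 0 := by
    intro x
    have := ph_sq_lt p x
    linarith
  have h3 : Continuous (fun x => ph p x ^ 2 / (1 - ph p x ^ 2)) :=
    (h1.pow 2).div (by fun_prop) hne
  have hd : ∀ x ∈ uIcc 0 (Tp p), HasDerivAt (fun x => ph p x * ps p x)
      ((ps p x ^ 2 + ph p x ^ 2) - p.1.2 * (ph p x ^ 2 / (1 - ph p x ^ 2))) x := by
    intro x _
    have h4 := (ph_deriv p x).mul (ps_deriv p x)
    refine h4.congr_deriv ?_
    have := hne x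
    field_simp
    ring
  have h5 := intervalIntegral.integral_eq_sub_of_hasDerivAt hd (by
    apply Continuous.intervalIntegrable
    exact ((h2.pow 2).add (h1.pow 2)).sub (continuous_const.mul h3))
  have e1 : ph p (Tp p) = ph p 0 := by
    have := ph_per p 0
    rwa [zero_add] at this
  have e2 : ps p (Tp p) = ps p 0 := by
    have := ps_per p 0
    rwa [zero_add] at this
  rw [e1, e2, sub_self, intervalIntegral.integral_sub, intervalIntegral.integral_const_mul] at h5
  · linarith
  · apply Continuous.intervalIntegrable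
    exact (h2.pow 2).add (h1.pow 2)
  · apply Continuous.intervalIntegrable
    exact continuous_const.mul h3

theorem Hr_eq (L : ℝ) (p : PP) {r : ℝ} (h0 : 0 ≤ r) (h1 : r * p.1.1 < 1) :
    Hr L p r + (1 - p.1.2) * Qr L p r =
      r * (∫ x in (0 : ℝ)..L, (ps p x ^ 2 + ph p x ^ 2)) +
      p.1.2 * ∫ x in (0 : ℝ)..L, Real.log (1 - r * ph p x ^ 2) := by
  have c1 := ph_cont1 p
  have c2 := ps_cont1 p
  have c3 : Continuous (fun x => Real.log (1 - r * ph p x ^ 2)) := by
    apply Continuous.log (by fun_prop)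
    intro x
    have := r_ph_lt h0 h1 x
    linarith
  unfold Hr Qr
  rw [intervalIntegral.integral_add, intervalIntegral.integral_neg,
    ← intervalIntegral.integral_const_mul r]
  · have e : ∫ x in (0 : ℝ)..L, (r * ps p x ^ 2 + r * ph p x ^ 2) =
        ∫ x in (0 : ℝ)..L, r * (ps p x ^ 2 + ph p x ^ 2) := by
      apply intervalIntegral.integral_congr
      intro x _
      simp only
      ring
    rw [e]
    ring
  · apply Continuous.intervalIntegrable
    fun_prop
  · exact c3.intervalIntegrable _ _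

/-- scaling does not increase `H + ωQ` -/
theorem scaling {L : ℝ} {p : PP} (hL : 0 < L) (hT : Tp p = L) {r : ℝ} (h0 : 0 ≤ r)
    (h1 : r * p.1.1 < 1) : Hr L p r + (1 - p.1.2) * Qr L p r ≤ DD L p := by
  have hr1 : (1 : ℝ) * p.1.1 < 1 := by
    rw [one_mul]; exact p.2.2.1
  unfold DD
  rw [Hr_eq L p h0 h1, Hr_eq L p zero_le_one hr1]
  have hv := virial p
  rw [hT] at hv
  have c1 := ph_cont1 p
  have c2 := ps_cont1 p
  have hne : ∀ x, 1 - ph p x ^ 2 ≠ 0 := by
    intro x
    have := ph_sq_lt p x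
    linarith
  have c3 : Continuous (fun x => Real.log (1 - r * ph p x ^ 2)) := by
    apply Continuous.log (by fun_prop)
    intro x
    have := r_ph_lt h0 h1 x
    linarith
  have c4 : Continuous (fun x => Real.log (1 - 1 * ph p x ^ 2)) := by
    apply Continuous.log (by fun_prop)
    intro x
    have := r_ph_lt zero_le_one hr1 x
    linarith
  have c5 : Continuous (fun x => ph p x ^ 2 / (1 - ph p x ^ 2)) :=
    (c1.pow 2).div (by fun_prop) hne
  have hint : ∫ x in (0 : ℝ)..L, (Real.log (1 - r * ph p x ^ 2) -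
      Real.log (1 - 1 * ph p x ^ 2)) ≤
      ∫ x in (0 : ℝ)..L, (1 - r) * (ph p x ^ 2 / (1 - ph p x ^ 2)) := by
    apply intervalIntegral.integral_mono_on hL.le
    · exact (c3.sub c4).intervalIntegrable _ _
    · exact (continuous_const.mul c5).intervalIntegrable _ _
    · intro x _
      have g1 := r_ph_lt h0 h1 x
      have g2 := ph_sq_lt p x
      rw [one_mul, ← Real.log_div (by linarith) (by linarith)]
      have h3 := Real.log_le_sub_one_of_pos
        (div_pos (show 0 < 1 - r * ph p x ^ 2 by linarith) (show 0 < 1 - ph p x ^ 2 by linarith))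
      refine h3.trans (le_of_eq ?_)
      have := hne x
      field_simp
      ring
  rw [intervalIntegral.integral_sub (c3.intervalIntegrable _ _) (c4.intervalIntegrable _ _),
    intervalIntegral.integral_const_mul] at hint
  have hΩ : 0 < p.1.2 := by linarith [p.2.2.2]
  have h5 := mul_le_mul_of_nonneg_left hint hΩ.le
  rw [hv]
  nlinarith

end Pool.Agent.Helper61.NLS
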