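import Pool.Agent.Helper61.NLS.KFun
import Pool.Agent.Helper61.NLS.Inv

/-! The family of odd periodic waves. -/

set_option autoImplicit false
open MeasureTheory Topology Filter Set

namespace Pool.Agent.Helper61.NLS

/-- parameter space -/
abbrev PP := {p : ℝ × ℝ // 0 < p.1 ∧ p.1 < 1 ∧ 1 < p.2}

/-- squared speed -/
noncomputable def GG (p : PP) (θ : ℝ) : ℝ := √(p.1.2 * K p.1.1 (Real.sin θ ^ 2) - 1)

/-- weight -/
noncomputable def WW (p : PP) (θ : ℝ) : ℝ := (GG p θ)⁻¹

theorem sin_sq_mem (θ : ℝ) : Real.sin θ ^ 2 ∈ Icc (0 : ℝ) 1 := ⟨sq_nonneg _, Real.sin_sq_le_one θ⟩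

theorem GG_arg_pos (p : PP) (θ : ℝ) : p.1.2 - 1 ≤ p.1.2 * K p.1.1 (Real.sin θ ^ 2) - 1 := by
  obtain ⟨h1, h2, h3⟩ := p.2
  have := K_ge_one h1.le h2 (sin_sq_mem θ)
  nlinarith

theorem GG_sq (p : PP) (θ : ℝ) : GG p θ ^ 2 = p.1.2 * K p.1.1 (Real.sin θ ^ 2) - 1 := by
  unfold GG
  rw [Real.sq_sqrt]
  have := GG_arg_pos p θ
  have := p.2.2.2
  linarith

theorem GG_pos (p : PP) (θ : ℝ) : 0 < GG p θ := by
  unfold GG
  apply Real.sqrt_pos.2
  have := GG_arg_pos p θ
  have := p.2.2.2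
  linarith

theorem GG_cont : Continuous fun q : PP × ℝ => GG q.1 q.2 := by
  unfold GG
  apply Continuous.sqrt
  apply Continuous.sub _ continuous_const
  apply Continuous.mul (by fun_prop)
  apply K_cont (α := fun q : PP × ℝ => q.1.1.1) (ζ := fun q => Real.sin q.2 ^ 2) (by fun_prop)
    (by fun_prop) (fun q => q.1.2.1.le) (fun q => q.1.2.2.1) (fun q => sin_sq_mem q.2)

theorem WW_good : Good WW where
  cont := by
    have h : Function.uncurry WW = fun q : PP × ℝ => (GG q.1 q.2)⁻¹ := by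
      funext q; rfl
    rw [h]
    exact GG_cont.inv₀ fun q => (GG_pos q.1 q.2).ne'
  low := by
    intro p
    obtain ⟨h1, h2, h3⟩ := p.2
    refine ⟨(√(p.1.2 * (1 - p.1.1)⁻¹))⁻¹, ?_, fun θ => ?_⟩
    · apply inv_pos.2
      apply Real.sqrt_pos.2
      have : 0 < 1 - p.1.1 := by linarith
      positivity
    · unfold WW
      apply inv_anti₀ (GG_pos p θ)
      unfold GG
      apply Real.sqrt_le_sqrt
      have := K_le h1.le h2 (sin_sq_mem θ)
      have := mul_le_mul_of_nonneg_left this (show 0 ≤ p.1.2 by linarith)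
      linarith
  per := by
    intro p θ
    unfold WW GG
    rw [Real.sin_add_two_pi]
  even := by
    intro p θ
    unfold WW GG
    rw [Real.sin_neg, neg_sq]

/-- the angle -/
noncomputable def Th (p : PP) (x : ℝ) : ℝ := TH WW p x

/-- the period -/
noncomputable def Tp (p : PP) : ℝ := XX WW p (2 * Real.pi)

theorem Th_cont : Continuous fun q : PP × ℝ => Th q.1 q.2 := WW_good.TH_cont

theorem Th_deriv (p : PP) (x : ℝ) : HasDerivAt (Th p) (GG p (Th p x)) x := by
  have := WW_good.TH_deriv p x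
  unfold WW at this
  rwa [inv_inv] at this

theorem Th_zero (p : PP) : Th p 0 = 0 := WW_good.TH_zero p
theorem Th_add (p : PP) (x : ℝ) : Th p (x + Tp p) = Th p x + 2 * Real.pi := WW_good.TH_add p x
theorem Th_neg (p : PP) (x : ℝ) : Th p (-x) = -Th p x := WW_good.TH_neg p x
theorem Th_strictMono (p : PP) : StrictMono (Th p) := WW_good.TH_strictMono p

theorem Tp_pos (p : PP) : 0 < Tp p := by
  have := WW_good.XX_strictMono p (show (0 : ℝ) < 2 * Real.pi by positivity)
  rwa [XX_zero] at this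

/-- the wave -/
noncomputable def ph (p : PP) (x : ℝ) : ℝ := √p.1.1 * Real.sin (Th p x)

/-- its derivative -/
noncomputable def ps (p : PP) (x : ℝ) : ℝ := √p.1.1 * Real.cos (Th p x) * GG p (Th p x)

theorem ph_cont : Continuous fun q : PP × ℝ => ph q.1 q.2 := by
  unfold ph
  have := Th_cont
  fun_prop

theorem ps_cont : Continuous fun q : PP × ℝ => ps q.1 q.2 := by
  unfold ps
  have h := Th_cont
  have h2 : Continuous fun q : PP × ℝ => GG q.1 (Th q.1 q.2) :=
    GG_cont.comp (continuous_fst.prodMk h)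
  fun_prop

theorem ph_sq (p : PP) (x : ℝ) : ph p x ^ 2 = p.1.1 * Real.sin (Th p x) ^ 2 := by
  unfold ph
  rw [mul_pow, Real.sq_sqrt p.2.1.le]

theorem ph_sq_le (p : PP) (x : ℝ) : ph p x ^ 2 ≤ p.1.1 := by
  rw [ph_sq]
  have := (sin_sq_mem (Th p x)).2
  have := p.2.1
  nlinarith

theorem ph_sq_lt (p : PP) (x : ℝ) : ph p x ^ 2 < 1 := (ph_sq_le p x).trans_lt p.2.2.1

theorem ph_abs_lt (p : PP) (x : ℝ) : |ph p x| < 1 := by
  rw [← sq_lt_one_iff_abs_lt_one]
  exact ph_sq_lt p x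

theorem ph_deriv (p : PP) (x : ℝ) : HasDerivAt (ph p) (ps p x) x := by
  unfold ph ps
  have h := ((Th_deriv p x).sin).const_mul (√p.1.1)
  refine h.congr_deriv ?_
  ring

theorem GG_deriv (p : PP) (θ : ℝ) : ∃ K', HasDerivAt (GG p)
    (p.1.2 * K' * Real.sin θ * Real.cos θ / GG p θ) θ ∧
    K p.1.1 (Real.sin θ ^ 2) - (1 - Real.sin θ ^ 2) * K' = (1 - p.1.1 * Real.sin θ ^ 2)⁻¹ := by
  obtain ⟨K', h1, h2⟩ := K_deriv p.2.1 p.2.2.1 (sin_sq_mem θ)
  refine ⟨K', ?_, h2⟩
  have h3 : HasDerivAt (fun θ => Real.sin θ ^ 2) (2 * Real.sin θ * Real.cos θ) θ := by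
    have := (Real.hasDerivAt_sin θ).pow 2
    refine this.congr_deriv ?_
    norm_num
  have h4 : HasDerivAt (fun θ => K p.1.1 (Real.sin θ ^ 2))
      (K' * (2 * Real.sin θ * Real.cos θ)) θ := by
    have := HasDerivAt.comp (h₂ := K p.1.1) (h := fun θ => Real.sin θ ^ 2) θ h1 h3
    exact this
  have h5 := (h4.const_mul p.1.2).sub_const 1
  have h6 : p.1.2 * K p.1.1 (Real.sin θ ^ 2) - 1 ≠ 0 := by
    have := GG_arg_pos p θ
    have := p.2.2.2
    linarith
  have h7 := h5.sqrt h6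
  unfold GG
  refine h7.congr_deriv ?_
  have h8 : √(p.1.2 * K p.1.1 (Real.sin θ ^ 2) - 1) ≠ 0 := (GG_pos p θ).ne'
  field_simp

theorem ps_deriv (p : PP) (x : ℝ) :
    HasDerivAt (ps p) (ph p x * (1 - p.1.2 / (1 - ph p x ^ 2))) x := by
  obtain ⟨K', h1, h2⟩ := GG_deriv p (Th p x)
  have h3 := Th_deriv p x
  have h4 : HasDerivAt (fun x => GG p (Th p x))
    (p.1.2 * K' * Real.sin (Th p x) * Real.cos (Th p x) / GG p (Th p x) * GG p (Th p x)) x :=
    h1.comp x h3
  have h5 := ((h3.cos).const_mul (√p.1.1)).mul h4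
  unfold ps
  refine h5.congr_deriv ?_
  have hG := (GG_pos p (Th p x)).ne'
  have hsq := GG_sq p (Th p x)
  have h6 : 1 - ph p x ^ 2 ≠ 0 := by
    have := ph_sq_lt p x
    linarith
  rw [ph_sq] at h6 ⊢
  have hcos : Real.cos (Th p x) ^ 2 = 1 - Real.sin (Th p x) ^ 2 := by
    have := Real.sin_sq_add_cos_sq (Th p x); linarith
  unfold ph
  generalize Real.sin (Th p x) = s at *
  generalize Real.cos (Th p x) = c at *
  generalize GG p (Th p x) = G at *
  generalize √p.1.1 = r at *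
  generalize p.1.1 = a at *
  generalize p.1.2 = Ω at *
  have e1 : Ω / (1 - a * s ^ 2) = Ω * (K a (s ^ 2) - (1 - s ^ 2) * K') := by
    rw [h2, div_eq_mul_inv]
  rw [e1]
  have e2 : Ω * K' * s * c / G * G = Ω * K' * s * c := by field_simp
  rw [e2]
  have e3 : r * (-s * G) * G + r * c * (Ω * K' * s * c)
     = r * s * (-(G ^ 2) + Ω * K' * c ^ 2) := by ring
  rw [e3, hsq, hcos]
  ring

theorem ph_per (p : PP) : Function.Periodic (ph p) (Tp p) := by
  intro x
  unfold ph
  rw [Th_add, Real.sin_add_two_pi]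

theorem ps_per (p : PP) : Function.Periodic (ps p) (Tp p) := by
  intro x
  unfold ps GG
  rw [Th_add, Real.cos_add_two_pi, Real.sin_add_two_pi]

theorem ph_odd (p : PP) (x : ℝ) : ph p (-x) = -ph p x := by
  unfold ph
  rw [Th_neg, Real.sin_neg]
  ring

theorem sqrt_a_pos (p : PP) : 0 < √p.1.1 := Real.sqrt_pos.2 p.2.1

theorem ph_minper (p : PP) {T : ℝ} (h0 : 0 < T) (h1 : T < Tp p) :
    ¬ Function.Periodic (ph p) T := by
  intro h
  have h2 := h (XX WW p (Real.pi / 2))
  unfold ph at h2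
  have e : Th p (XX WW p (Real.pi / 2)) = Real.pi / 2 := WW_good.TH_left p _
  have h3 := mul_left_cancel₀ (sqrt_a_pos p).ne' h2
  have h4 := Th_strictMono p (show XX WW p (Real.pi / 2) < XX WW p (Real.pi / 2) + T by linarith)
  have h5 := Th_strictMono p (show XX WW p (Real.pi / 2) + T < XX WW p (Real.pi / 2) + Tp p by
    linarith)
  rw [Th_add] at h5
  rw [e] at h3 h4 h5
  rw [Real.sin_pi_div_two] at h3
  set y := Th p (XX WW p (Real.pi / 2) + T) with hy
  have h6 : Real.cos (y - Real.pi / 2) = 1 := by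
    rw [Real.cos_sub_pi_div_two]; exact h3
  have h7 := (Real.cos_eq_one_iff_of_lt_of_lt (by linarith [Real.pi_pos]) (by linarith)).1 h6
  linarith

theorem ph_contDiff_aux (p : PP) (n : ℕ) : ContDiff ℝ n (ph p) ∧ ContDiff ℝ n (ps p) := by
  have hd1 : Differentiable ℝ (ph p) := fun x => (ph_deriv p x).differentiableAt
  have hd2 : Differentiable ℝ (ps p) := fun x => (ps_deriv p x).differentiableAt
  have e1 : deriv (ph p) = ps p := by
    funext x; exact (ph_deriv p x).deriv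
  have e2 : deriv (ps p) = fun x => ph p x * (1 - p.1.2 / (1 - ph p x ^ 2)) := by
    funext x; exact (ps_deriv p x).deriv
  induction n with
  | zero =>
    constructor
    · exact contDiff_zero.2 hd1.continuous
    · exact contDiff_zero.2 hd2.continuous
  | succ n ih =>
    obtain ⟨i1, i2⟩ := ih
    constructor
    · have : ContDiff ℝ ((n : WithTop ℕ∞) + 1) (ph p) := by
        rw [contDiff_succ_iff_deriv]
        refine ⟨hd1, by simp, ?_⟩
        rw [e1]; exact i2
      exact_mod_cast this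
    · have : ContDiff ℝ ((n : WithTop ℕ∞) + 1) (ps p) := by
        rw [contDiff_succ_iff_deriv]
        refine ⟨hd2, by simp, ?_⟩
        rw [e2]
        apply i1.mul
        apply contDiff_const.sub
        apply contDiff_const.div (contDiff_const.sub (i1.pow 2))
        intro x
        have := ph_sq_lt p x
        exact (by linarith : (1 : ℝ) - ph p x ^ 2 ≠ 0)
      exact_mod_cast this

theorem ph_contDiff (p : PP) : ContDiff ℝ (⊤ : ℕ∞) (ph p) :=
  contDiff_infty.2 fun n => (ph_contDiff_aux p n).1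

end Pool.Agent.Helper61.NLS
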